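import Pool.Agent.Lib.MP_ae0f86_nt.GC.Stm

/-!
# MP_ae0f86_nt : maximal cycles

A cycle `γ` for `W` is maximal if no cycle for `W` has a larger predicted number of linearly
independent integrals. Generic cycles are maximal.
-/

open CategoryTheory CategoryTheory.Limits Opposite MonoidalCategory Filter

universe w v u

namespace Pool.Agent.Lib.MP_ae0f86_nt

noncomputable section

attribute [local instance] CategoryTheory.Abelian.hasFiniteBiproducts

variable {A : Type u} [Category.{v} A] [Abelian A] [MonoidalCategory A] [SymmetricCategory A]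
  {HdR : A ⥤ ModuleCat.{0} QBar} {HB : A ⥤ ModuleCat.{0} ℚ} [FibreFunctor HdR]
  [FibreFunctor HB]

omit [Abelian A] [MonoidalCategory A] [SymmetricCategory A] [FibreFunctor HB] in
/-- The cycle `γ ∈ H_B(W)^∨` is maximal: among all cycles for `W`, the number of linearly
independent integrals over `γ` which is expected from the period conjecture is the largest. -/
def MaximalCycle (HB : A ⥤ ModuleCat.{0} ℚ) {W : A} (γ : BDual HB W) : Prop :=
  ∀ γ' : BDual HB W, cycleExpected HB γ' ≤ cycleExpected HB γ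

namespace GC

/-- Generic cycles are maximal. -/
def S_gmax (HB : A ⥤ ModuleCat.{0} ℚ) [FibreFunctor HB] : Prop :=
  ∀ W : A, ForGeneric HB W (MaximalCycle HB)

theorem p_gmax [Linear ℚ A] (c : Comparison HdR HB) (hsem : S_sem.{u, v, u} HdR HB)
    (hand : S_and HB) (hrk : S_rk c) (hcmp : S_cmp c) : S_gmax HB := by
  intro W
  have hT : TClosed (fun _ : A => True) := by
    refine { sub := ?_, quot := ?_, sum := ?_, ne := ⟨W, trivial⟩, unit := trivial, tensor := ?_ } <;> intros <;>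
      trivial
  -- a maximal cycle exists
  obtain ⟨γ0, hγ0⟩ : ∃ γ0 : BDual HB W, MaximalCycle HB γ0 := by
    have hb : BddAbove (Set.range fun γ : BDual HB W => cycleExpected HB γ) :=
      ⟨Nf HB W, by rintro _ ⟨γ, rfl⟩; exact (hcmp.2.1 W γ).1⟩
    have hne : (Set.range fun γ : BDual HB W => cycleExpected HB γ).Nonempty := ⟨_, 0, rfl⟩
    obtain ⟨γ0, h0⟩ := Nat.sSup_mem hne hb
    exact ⟨γ0, fun γ' => by
      have h1 : cycleExpected HB γ0 = _ := h0
      rw [h1]
      exact le_csSup hb ⟨γ', rfl⟩⟩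
  have h1 := hsem (S := fun _ : A => True) (W := W) trivial _ LinearMap.id Set.univ γ0
  refine hand.2.1 _ _ _ h1 fun γ hγ γ' => (hγ0 γ').trans ?_
  have e : ∀ γ : BDual HB W, {r | ∃ ω ∈ (Set.univ : Set (HdR.obj W)),
      r = LinearMap.id (R := QBar) (asym HdR HB (S := fun _ : A => True) (N := W) trivial ω γ)} =
      {r | ∃ ω, r = asym HdR HB (S := fun _ : A => True) (N := W) trivial ω γ} := by
    intro γ
    ext r
    simp
  rw [e, e] at hγ
  rw [hrk hT (W := W) trivial γ0, hrk hT (W := W) trivial γ]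
  exact hγ

variable [RigidCategory A]

/-- [GC glawmax] The law for one maximal cycle on each member of a sequence `W k ≅ T^{⊗ (n + 1)} ⊗ D`
(`D` invertible). -/
def S_glawmax (c : Comparison HdR HB) : Prop := [Linear ℚ A] → ∀ (T W D : ℕ → A) (n : ℕ → ℕ),
  (∀ k, ∃ D' : A, Nonempty (D k ⊗ D' ≅ 𝟙_ A)) →
  (∀ k, Nonempty (W k ≅ tpow (T k) (n k + 1) ⊗ D k)) →
  (∀ N : A, ∃ k0, ∀ k, k0 ≤ k → ∃ R : A, ¬ IsZero R ∧ Lin (T k) (N ⊗ R)) →
  Tendsto (fun k => (n k : ℝ) / ((Module.finrank ℚ (HB.obj (T k)) : ℝ) ^ 4 *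
    Real.log ((n k : ℝ) + 2))) atTop atTop →
  ∀ γ : ∀ k, BDual HB (W k), (∀ k, MaximalCycle HB (γ k)) →
    ((∀ M : A, DimFormula c M) →
      Tendsto (fun k => (cycleIndependent c (γ k) : ℝ) / cycleExpected HB (γ k)) atTop
        (nhds (⨅ M : A, (1 : ℝ) / ncomp HdR HB M))) ∧
    ((∃ M : A, ¬ DimFormula c M) →
      Tendsto (fun k => (cycleIndependent c (γ k) : ℝ) / cycleExpected HB (γ k)) atTop
        (nhds 0)) ∧
    (∀ δ : ℝ, 0 < δ → List.TFAE [
      ∀ M : A, DimFormula c M ∧ δ * (ncomp HdR HB M : ℝ) ≤ 1,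
      ∀ (W' : A) (γ' : BDual HB W'),
        δ * (cycleExpected HB γ' : ℝ) ≤ cycleIndependent c γ',
      ∃ᶠ k in atTop, δ * (cycleExpected HB (γ k) : ℝ) ≤ cycleIndependent c (γ k)]) ∧
    List.TFAE [
      ∀ M : A, PeriodConjecture c M,
      ∀ k, cycleIndependent c (γ k) = cycleExpected HB (γ k),
      ∃ δ : ℝ, 1 / 2 < δ ∧
        ∃ᶠ k in atTop, δ * (cycleExpected HB (γ k) : ℝ) ≤ cycleIndependent c (γ k)]

end GC

end

end Pool.Agent.Lib.MP_ae0f86_nt
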