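import Pool.Agent.Lib.MP_ae0f86_nt.Systems

/-!
# MP_ae0f86_nt : definitions for the theorems on single generic cycles
-/

open CategoryTheory CategoryTheory.Limits Opposite MonoidalCategory

universe v u

namespace Pool.Agent.Lib.MP_ae0f86_nt

noncomputable section

attribute [local instance] CategoryTheory.Abelian.hasFiniteBiproducts

variable {A : Type u} [Category.{v} A] [Abelian A] [MonoidalCategory A] [SymmetricCategory A]
  {HdR : A ⥤ ModuleCat.{0} QBar} {HB : A ⥤ ModuleCat.{0} ℚ} [FibreFunctor HdR]
  [FibreFunctor HB]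

/-- `P(γ)`, the number of linearly independent integrals over the cycle `γ ∈ H_B(W)^∨`: the
dimension of the vector space over `QBar` spanned by the periods `γ(ω)`, `ω ∈ H_dR(W)`. -/
def cycleIndependent (c : Comparison HdR HB) {W : A} (γ : BDual HB W) : ℕ :=
  Module.finrank QBar (Submodule.span QBar {z : ℂ | ∃ ω : HdR.obj W, c.val ω γ = z})

omit [Abelian A] [MonoidalCategory A] [SymmetricCategory A] [FibreFunctor HB] in
/-- `N(γ)`, the number of linearly independent integrals over the cycle `γ ∈ H_B(W)^∨` expected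
from the period conjecture: the least rank of an object `Q` such that `γ` is the inverse image of an
element of `H_B(Q)^∨` under a morphism `W ⟶ Q`. -/
def cycleExpected (HB : A ⥤ ModuleCat.{0} ℚ) {W : A} (γ : BDual HB W) : ℕ :=
  sInf {d | ∃ (Q : A) (q : W ⟶ Q) (δ : BDual HB Q),
    δ.pull q = γ ∧ Module.finrank ℚ (HB.obj Q) = d}

/-- The property `P` holds for generic cycles `γ ∈ H_B(W)^∨`: for all `γ` outside the zero set of a
nonzero polynomial in the coordinates of `γ`. -/
def ForGeneric (HB : A ⥤ ModuleCat.{0} ℚ) [FibreFunctor HB] (W : A)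
    (P : BDual HB W → Prop) : Prop :=
  ∃ F : MvPolynomial (Fin (Module.finrank ℚ (HB.obj W))) QBar, F ≠ 0 ∧
    ∀ γ : BDual HB W, MvPolynomial.eval
      (fun i => algebraMap ℚ QBar (γ.app (Module.finBasis ℚ (HB.obj W) i))) F ≠ 0 → P γ

end

end Pool.Agent.Lib.MP_ae0f86_nt
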