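import Pool.Agent.Lib.MP_ae0f86_nt.StmD3
import Pool.Agent.Lib.MP_ae0f86_nt.R.Defs
import Pool.Agent.Lib.MP_ae0f86_nt.GC.Defs

/-!
# MP_ae0f86_nt : statements of the pieces, single generic cycles

For an object `W` and a cycle `γ ∈ H_B(W)^∨` let `row γ ⊆ PerAlg S` be the space of the symbols
`(W, ω, γ)`, `ω ∈ H_dR(W)` (one row of the formal period matrix). We show that for tensor powers
`W = T^{⊗ n}` a generic row contains (essentially) all formal periods of `T^{⊗ m}` for `m` only a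
little smaller than `n`.

Every `S_xxx` is a proposition; the piece `[GC xxx]` is a theorem `p_xxx : S_xxx`, with the
hypotheses which the docstring says it uses.
-/

open CategoryTheory CategoryTheory.Limits Opposite MonoidalCategory Filter

universe w v u

namespace Pool.Agent.Lib.MP_ae0f86_nt.GC

noncomputable section

attribute [local instance] CategoryTheory.Abelian.hasFiniteBiproducts

/-! ## A. algebra and combinatorics -/

/-- [GC sel] The sum of a family of subspaces, if it has dimension at most `q`, is the sum of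
`q` of them.

Proof: by induction on `p ≤ q` there are `e_0, ..., e_{p-1}` such that the sum `F_p` of the
`V(e_a)`, `a < p`, is everything (i.e. `⨆ e, V e`) or has dimension `≥ p`: if `F_p` is not
everything there is `e` with `V(e)` not contained in `F_p`, and then `F_p ⊔ V(e)` has larger
dimension (`Submodule.finrank_lt_finrank_of_lt`); if it is everything take any `e`. For `p = q` both
cases give `F_q = ⨆ e, V e` (`Submodule.eq_of_le_of_finrank_le`). -/
def S_sel : Prop := ∀ (K : Type) [Field K] (R : Type w) [AddCommGroup R] [Module K R]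
  (E : Type v) [Nonempty E] (V : E → Submodule K R) [Module.Finite K ↥(⨆ e, V e)] (q : ℕ),
  Module.finrank K ↥(⨆ e, V e) ≤ q → ∃ e : Fin q → E, ⨆ a, V (e a) = ⨆ e, V e

/-- [GC semi] The rank of a family of vectors depending linearly on parameters `x` is lower
semicontinuous.

Proof. Let `v_s(x) = ∑_l x_l φ(s, l) ∈ F` and let `q` be the dimension of the span of the
`v_s(x0)` (a subspace of `F`, so finite-dimensional). There are `s_1, ..., s_q ∈ J` such that the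
`v_{s_a}(x0)` are linearly independent (extract a basis from the spanning set:
`exists_linearIndependent`, `Submodule.exists_fun_fin_finrank_span_eq` or similar), and linear forms
`ℓ_1, ..., ℓ_q` on `L` with `ℓ_b(v_{s_a}(x0)) = δ_{ab}` (extend the dual basis:
`LinearIndependent.extend`, `Basis.constr`, or `LinearMap.exists_leftInverse_of_injective`). Let `P`
be the determinant of the matrix `(∑_l C(ℓ_b(φ(s_a, l))) X_l)_{a,b}` over `MvPolynomial (Fin d) K`;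
`eval x P = det(ℓ_b(v_{s_a}(x)))` (`RingHom.map_det`), so `eval x0 P = 1`, and if `eval x P ≠ 0`
then the `v_{s_a}(x)` are linearly independent, and they are in the span of the `v_s(x)`, which is
contained in `F`, so finite-dimensional. -/
def S_semi : Prop := ∀ (K : Type) [Field K] (d : ℕ) (J : Type v) (L : Type w) [AddCommGroup L]
  [Module K L] (F : Submodule K L) [Module.Finite K F] (φ : J → Fin d → L),
  (∀ s l, φ s l ∈ F) → ∀ x0 : Fin d → K, ∃ P : MvPolynomial (Fin d) K,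
    MvPolynomial.eval x0 P ≠ 0 ∧ ∀ x : Fin d → K, MvPolynomial.eval x P ≠ 0 →
      Module.finrank K (Submodule.span K {r | ∃ s, r = ∑ l, x0 l • φ s l}) ≤
      Module.finrank K (Submodule.span K {r | ∃ s, r = ∑ l, x l • φ s l})

/-- [GC pow] `dim V^j ≤ dim Sym^j`, for a finite-dimensional subspace `V` of a commutative
algebra.

Proof: choose `v : Fin m → R` with `V = span (range v)` (a basis, filled up with zeros); `V^j` is
spanned by the products `∏_{i ∈ s} v_i` for the multisets `s ∈ Sym (Fin m) j` (`Submodule.span_pow`,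
or induction on `j`), and `card (Sym (Fin m) j) = multichoose m j`
(`Sym.card_sym_fin_eq_multichoose`). -/
def S_pow : Prop := ∀ (K : Type) [Field K] (R : Type w) [CommRing R] [Algebra K R]
  (V : Submodule K R) [Module.Finite K V] (m j : ℕ), Module.finrank K V ≤ m →
  Module.finrank K ↥(V ^ j) ≤ Nat.multichoose m j

/-- [GC ghilb] Growth of the graded algebra generated by a finite-dimensional subspace `V` of
dimension at most `m + 1` (`1 ∈ V` is not assumed; compare `S_hilb` and `D/Hilb.lean`).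

Proof. Choose `v_0, ..., v_m` with `V = span(v_0, ..., v_m)` (fill up with zeros). For
`a ∈ ℕ^{m+1}` (`Fin (m+1) →₀ ℕ`) let `|a| = ∑ a_i` and `v^a = ∏ v_i^{a_i}`. Then
`V^n = span {v^a | |a| = n}` (induction on `n`). Let `<` be a monomial order (`MonomialOrder.lex` or
`degLex`): a well-order compatible with addition. Let `B` be the set of all `a` with
`v^a ∉ span {v^b | |b| = |a|, b < a}`, and `B_n = {a ∈ B | |a| = n}`, a finite set.
(1) `{v^a | a ∈ B_n}` spans `V^n`: by well-founded induction `v^a` is in the span of the `v^b` with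
`b ∈ B`, `|b| = |a|`, `b ≤ a`. (2) `(v^a)_{a ∈ B_n}` is linearly independent: in a nontrivial
relation consider the largest `a` with nonzero coefficient. So `dim V^n = #B_n`.
(3) `B` is closed under divisors: if `b ≤ a` componentwise and `b ∉ B` then
`v^b ∈ span {v^c | |c| = |b|, c < b}`, so `v^a = v^{a-b} v^b ∈ span {v^{c+a-b}}` with
`|c + (a - b)| = |a|` and `c + (a - b) < a`, so `a ∉ B`.
(4) `(n + 1) #B_{n+1} = ∑_{a ∈ B_{n+1}} ∑_i a_i = ∑_{(a, i), a_i ≥ 1} a_i`; the map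
`(a, i) ↦ (a - e_i, i)` from the pairs with `a ∈ B_{n+1}`, `a_i ≥ 1`, to `B_n × {0, ..., m}` is
injective, and `a_i = b_i + 1` for `b = a - e_i`. So the sum is at most
`∑_{b ∈ B_n} ∑_i (b_i + 1) = #B_n (n + m + 1)`. -/
def S_ghilb : Prop := ∀ (K : Type) [Field K] (R : Type w) [CommRing R] [Algebra K R]
  (V : Submodule K R) [Module.Finite K V] (m : ℕ), Module.finrank K V ≤ m + 1 →
  ∀ n : ℕ, (n + 1) * Module.finrank K ↥(V ^ (n + 1)) ≤ (n + 1 + m) * Module.finrank K ↥(V ^ n)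

/-- [GC mch] Two bounds for `multichoose`.

Proof. (1) `multichoose B j = choose (B + j - 1) j` (`Nat.multichoose_eq`) and `B + j - 1 ≤ n`
(`Nat.choose_le_choose`; if `B = 0` then `multichoose 0 j` is `0` for `j ≥ 1` and `1` for `j = 0`).
(2) `multichoose (B + 1) j ≤ (j + 1)^B`: induction on `B`, `multichoose (B + 2) j =
∑_{i ≤ j} multichoose (B + 1) i` (or induction on `j` as well with
`multichoose (B + 2) (j + 1) = multichoose (B + 1) (j + 1) + multichoose (B + 2) j ≤ (j + 2)^B +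
(j + 1)^{B+1} ≤ (j + 2)^{B+1}`). (3) `2^r ≤ (r + 1) choose r (r / 2)`: the sum of the `r + 1`
binomial coefficients is `2^r` and `choose r (r / 2)` is the largest
(`Nat.choose_le_middle`, `Nat.sum_range_choose`). -/
def S_mch : Prop :=
  (∀ B j n : ℕ, j + B ≤ n + 1 → Nat.multichoose B j ≤ Nat.choose n j) ∧
  (∀ B j : ℕ, Nat.multichoose (B + 1) j ≤ (j + 1) ^ B) ∧
  (∀ r : ℕ, 2 ^ r ≤ (r + 1) * Nat.choose r (r / 2))

/-! ## B. real analysis -/

/-- [GC numa] The uniform form of the density law for one motive.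

Here `N n`, `P n` are the numbers for `T^{⊗ n}`, and `ν`, `ρ` are the numbers for a generic
cycle for `T^{⊗ n}`.

Proof. Let `B' = max B 1`. Case `n + 1 ≥ B'`: put `m = n + 1 - B'`, `m + B ≤ n + 1`, so `N m ≤ ν`,
`P m ≤ ρ`, and `(m + 1)(B' + 1) ≥ n + 1` (`x = n + 1 ≥ B'`: `(x + 1 - B')(B' + 1) = x + x B' + 1 - B'^2 ≥
x`), so `ν ≥ a (m + 1)^g ≥ a ((n + 1)/(B' + 1))^g` and similarly for `ρ`. Case `n + 1 < B'`:
`ν ≥ ρ ≥ 1 ≥ ((n + 1)/B')^g`. So `a' = min(a, 1) / (B' + 1)^g` works for both (`t ≤ g`), and `b` is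
unchanged. Ratio: `ρ / ν ≤ 1` always; if `n + 1 ≥ B'` then `ρ / ν ≤ P n / N m =
(P n / N n) (N n / N m)`, `N n / N m ≤ (1 + d / (m + 1))^(n - m)` by the growth inequality
(iterate), `n - m = B' - 1`, and `(1 + x)^k ≤ 1 + k x (1 + x)^k` with `x = d/(m + 1) ≤ d`, and
`1/(m + 1) ≤ (B' + 1)/(n + 1)`. (All `N n ≥ 1` because of the lower bound `a > 0`.) -/
def S_numa : Prop := ∀ (N P : ℕ → ℕ) (r g t B d : ℕ), 1 ≤ r → t ≤ g →
  (∃ a b : ℝ, 0 < a ∧ ∀ n : ℕ, a * ((n : ℝ) + 1) ^ g ≤ N n ∧ (N n : ℝ) ≤ b * ((n : ℝ) + 1) ^ g ∧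
    a * ((n : ℝ) + 1) ^ t ≤ P n ∧ (P n : ℝ) ≤ b * ((n : ℝ) + 1) ^ t) →
  (∀ n, P n ≤ N n) → (∀ n, (n + 1) * N (n + 1) ≤ (n + 1 + d) * N n) →
  (∃ a b : ℝ, 0 < a ∧ ∀ n ν ρ : ℕ, 1 ≤ ρ → ρ ≤ ν → ν ≤ N n → ρ ≤ P n →
    (∀ m, m + B ≤ n + 1 → N m ≤ ν ∧ P m ≤ ρ) →
    a * ((n : ℝ) + 1) ^ g ≤ ν ∧ (ν : ℝ) ≤ b * ((n : ℝ) + 1) ^ g ∧
      a * ((n : ℝ) + 1) ^ t ≤ ρ ∧ (ρ : ℝ) ≤ b * ((n : ℝ) + 1) ^ t) ∧
  ((∃ C : ℝ, ∀ n : ℕ, (P n : ℝ) / N n ≤ 1 / r + C / ((n : ℝ) + 1)) →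
    ∃ C : ℝ, ∀ n ν ρ : ℕ, 1 ≤ ρ → ρ ≤ ν → ν ≤ N n → ρ ≤ P n →
      (∀ m, m + B ≤ n + 1 → N m ≤ ν ∧ P m ≤ ρ) →
      (ρ : ℝ) / ν ≤ 1 / r + C / ((n : ℝ) + 1))

/-- [GC numb] The choice of the exponents for the sequences. Uses `S_mch`.

Proof. Put `B k = (b k)^2`, `L k = Nat.log 2 (n k + 2) + 1`, `r k = min (2 B_k L_k) ((n k + 1) / 2)` and
`m k = n k + 1 - 2 r k`. For `k` large `b k ≥ 1` and `n k / (B_k^2 log(n k + 2))` is large, so
`2 B_k L_k ≤ (n k + 1)/4` (as `L_k ≤ 4 log(n k + 2)`, `B_k ≤ B_k^2`), so `r k = 2 B_k L_k` and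
`m k + 1 ≥ (n k + 1)/2`. Then `multichoose B_k (m k) ≤ (m k + 1)^{B_k - 1} ≤ (n k + 2)^{B_k - 1}`
(`S_mch`, `B_k ≥ 1`) and `choose (r k) (r k / 2) ≥ 2^{r k} / (r k + 1) ≥ 2^{r k} / (n k + 2)`
(`r k + 1 ≤ n k + 2`), and `2^{r k} ≥ (2^{L_k})^{2 B_k} ≥ (n k + 2)^{2 B_k} ≥ (n k + 2)^{B_k}`
(`Nat.lt_pow_succ_log_self`), which gives the first claim. Second claim: `1 ≤ (1 + x)^s ≤ exp(s x)`
with `x = B_k / (m k + 1)`, `s = 2 r k`, and `s x ≤ 4 B_k^2 L_k · 2 / (n k + 1) → 0`. Third claim: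
`B_k / (n k + 1) → 0`. -/
def S_numb : Prop := ∀ (b n : ℕ → ℕ), (∀ᶠ k in atTop, 1 ≤ b k) →
  Tendsto (fun k => (n k : ℝ) / ((b k : ℝ) ^ 4 * Real.log ((n k : ℝ) + 2))) atTop atTop →
  ∃ m r : ℕ → ℕ, (∀ k, m k + 2 * r k = n k + 1) ∧
    (∀ᶠ k in atTop, Nat.multichoose ((b k) ^ 2) (m k) ≤ Nat.choose (r k) (r k / 2)) ∧
    Tendsto (fun k => (1 + ((b k : ℝ) ^ 2) / ((m k : ℝ) + 1)) ^ (2 * r k)) atTop (nhds 1) ∧
    Tendsto (fun k => 1 + ((b k : ℝ) ^ 2) / ((n k : ℝ) + 1)) atTop (nhds 1)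

/-! ## C. generic cycles -/

section Generic

variable {A : Type u} [Category.{v} A] [Abelian A]

/-- [GC and] Calculus of `ForGeneric`.

Proof. (1) `F = 1`. (2) the same `F`. (3) the product of the two polynomials
(`MvPolynomial` over a field is a domain). (4) induction on `N`, or the product. (5) choose an
index `i` (the rank is positive) and `F = X i`; if `γ = 0` then the coordinate is `0`. (6) a
nonzero polynomial over the field `QBar` does not vanish on all of `ℚ^d` (`ℚ` is infinite: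
`MvPolynomial.funext_set`/`MvPolynomial.funext_set_iff`, or induction on the number of variables);
given `x : Fin d → ℚ` with `eval (algebraMap ∘ x) F ≠ 0` let `γ` be the linear form with
`γ(b_i) = x i` (`Basis.constr`). -/
def S_and (HB : A ⥤ ModuleCat.{0} ℚ) [MonoidalCategory A] [SymmetricCategory A]
    [FibreFunctor HB] : Prop :=
  (∀ (W : A) (P : BDual HB W → Prop), (∀ γ, P γ) → ForGeneric HB W P) ∧
  (∀ (W : A) (P Q : BDual HB W → Prop), ForGeneric HB W P → (∀ γ, P γ → Q γ) →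
    ForGeneric HB W Q) ∧
  (∀ (W : A) (P Q : BDual HB W → Prop), ForGeneric HB W P → ForGeneric HB W Q →
    ForGeneric HB W (fun γ => P γ ∧ Q γ)) ∧
  (∀ (W : A) (N : ℕ) (P : ℕ → BDual HB W → Prop), (∀ j < N, ForGeneric HB W (P j)) →
    ForGeneric HB W (fun γ => ∀ j < N, P j γ)) ∧
  (∀ W : A, 0 < Module.finrank ℚ (HB.obj W) → ForGeneric HB W (fun γ => γ ≠ 0)) ∧
  (∀ (W : A) (P : BDual HB W → Prop), ForGeneric HB W P → ∃ γ, P γ)

end Generic

/-! ## D. rows -/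

section Rows

variable {A : Type u} [Category.{v} A] [Abelian A] [MonoidalCategory A] [SymmetricCategory A]
  {K : Type} [Field K] (H : A ⥤ ModuleCat.{0} K) (HB : A ⥤ ModuleCat.{0} ℚ)
  [FibreFunctor H] [FibreFunctor HB]

/-- The space of the symbols `(W, ω, γ)`, `ω ∈ H(W)`. -/
def row {S : A → Prop} {W : A} (hW : S W) (γ : Module.Dual ℚ (HB.obj W)) :
    Submodule K (PerAlg H HB S) :=
  Submodule.span K {r | ∃ ω, r = asym H HB hW ω γ}

/-- [GC row] Elementary properties of rows. Uses `S_arel`.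

Proof. (1) clear. (2) `ω ↦ asym W ω γ` is linear (`S_arel`), so the set of the symbols is a
subspace, equal to its span. (3) `fw` is spanned by the union of the rows. (4) the image of the
finite-dimensional `H(W)` under the linear map `ω ↦ asym W ω γ`. (5)
`asym N ω (γ' ∘ HB(f)) = asym N' (H(f) ω) γ'` (`S_arel`). (6) the same, with `H(f)` surjective
(`H` is exact: `inferInstance` for `Epi (H.map f)`, `ModuleCat.epi_iff_surjective`). -/
def S_row : Prop :=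
  (∀ {S : A → Prop} {W : A} (hW : S W) (γ : Module.Dual ℚ (HB.obj W)),
    row H HB hW γ ≤ fw H HB hW) ∧
  (∀ {S : A → Prop} {W : A} (hW : S W) (γ : Module.Dual ℚ (HB.obj W)) (x : PerAlg H HB S),
    x ∈ row H HB hW γ ↔ ∃ ω, x = asym H HB hW ω γ) ∧
  (∀ {S : A → Prop} {W : A} (hW : S W), ⨆ γ, row H HB hW γ = fw H HB hW) ∧
  (∀ {S : A → Prop} {W : A} (hW : S W) (γ : Module.Dual ℚ (HB.obj W)),
    Module.Finite K (row H HB hW γ)) ∧
  (∀ {S : A → Prop} {N N' : A} (hN : S N) (hN' : S N') (f : N ⟶ N')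
    (γ' : Module.Dual ℚ (HB.obj N')), row H HB hN (γ' ∘ₗ (HB.map f).hom) ≤ row H HB hN' γ') ∧
  (∀ {S : A → Prop} {N N' : A} (hN : S N) (hN' : S N') (f : N ⟶ N')
    (γ' : Module.Dual ℚ (HB.obj N')), Epi f →
    row H HB hN (γ' ∘ₗ (HB.map f).hom) = row H HB hN' γ')

end Rows

section Rows2

variable {A : Type u} [Category.{v} A] [Abelian A] [MonoidalCategory A] [SymmetricCategory A]
  {HdR : A ⥤ ModuleCat.{0} QBar} {HB : A ⥤ ModuleCat.{0} ℚ} [FibreFunctor HdR]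
  [FibreFunctor HB]

/-- [GC rev] The evaluation of a row. Uses `S_row`, `S_arel`.

Proof: `evAlg (asym W ω γ) = c.val ω γ` (`Ideal.Quotient.liftₐ`, `MvPolynomial.aeval_X`; see
`D/Fwev.lean`), so (1) and (2) follow from `Submodule.map_span`; `ω ↦ c.val ω γ` is linear. (3) is
(1). -/
def S_rev (c : Comparison HdR HB) : Prop :=
  (∀ {S : A → Prop} {W : A} (hW : S W) (γ : BDual HB W),
    (row HdR HB hW γ).map (c.evAlg S).toLinearMap =
      Submodule.span QBar {z : ℂ | ∃ ω : HdR.obj W, c.val ω γ = z}) ∧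
  (∀ {S : A → Prop} {W : A} (hW : S W) (γ : BDual HB W) (z : ℂ),
    z ∈ (row HdR HB hW γ).map (c.evAlg S).toLinearMap ↔ ∃ ω : HdR.obj W, c.val ω γ = z) ∧
  (∀ {S : A → Prop} {W : A} (hW : S W) (γ : BDual HB W),
    cycleIndependent c γ =
      Module.finrank QBar ((row HdR HB hW γ).map (c.evAlg S).toLinearMap))

/-- [GC rk] The expected number for a cycle is the dimension of its row. Uses `S_row`, `S_arel`,
`S_vans`, `S_rank`.

Proof. `≥`: let `δ.pull q = γ`, `q : W ⟶ Q`, `d = dim HB(Q)`. Let `q = p ≫ i` with `p : W ↠ Q'` epi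
and `i : Q' ↪ Q` mono (`Abelian.image`), `δ' = δ.pull i`. Then `Q' ∈ S` (`quot`), `γ = δ'.pull p`, so
`row W γ = row Q' δ'` (`S_row`) has dimension at most `dim H(Q') = dim HB(Q')` (`S_rank`; it is the
image of `H(Q')` under `ω ↦ asym Q' ω δ'`), which is at most `dim HB(Q) = d` (`HB(i)` is injective).
`≤`: the set of the numbers `d` in the definition of `cycleExpected` is not empty (`Q = W`,
`q = 𝟙`, `δ = γ`), so its minimum `d` is attained (`Nat.sInf_mem`), by `q : W ⟶ Q`, `δ`. Let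
`q = p ≫ i`, `Q'`, `δ'` be as before; `dim HB(Q') ≤ d`, so `Q'` also attains the minimum. `δ'` does not
vanish on `HB(N')` for any nonzero subobject `j : N' ↪ Q'`: otherwise `δ'` comes from
`Q'' = coker j` (`HB(coker.π j)` is surjective with kernel the image of `HB(j)`), which has smaller
dimension unless `HB(N') = 0`, i.e. `N' = 0` (`HB` is faithful). So if
`asym Q' ω δ' = 0` then by `S_vans` there is `j : N' ↪ Q'` with `ω ∈ H(N')` and `δ'.pull j = 0`, so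
`N' = 0`, `ω = 0`. So `ω ↦ asym Q' ω δ'` is injective and `dim row W γ = dim row Q' δ' =
dim H(Q') = dim HB(Q') ≥ cycleExpected`. -/
def S_rk (_ : Comparison HdR HB) : Prop := [Linear ℚ A] → ∀ {S : A → Prop}, TClosed S →
  ∀ {W : A} (hW : S W) (γ : BDual HB W),
    cycleExpected HB γ = Module.finrank QBar (row HdR HB hW γ)

/-- [GC cmp] Comparison of the numbers. Uses `S_row`, `S_rev`, `S_rk`, `S_fwdim`, `S_fwev`,
`S_fwfin`.

Proof. For (1)-(3) take `S = fun _ => True` (`TClosed` is trivial). (1)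
`Submodule.finrank_map_le`. (2) `row ≤ fw`, `dim fw W = Nf W` (`S_fwdim`), `map ev (fw W) =
span (Per W)` (`S_fwev`). (3) if all `c.val ω γ = 0` then `γ = 0`: the map
`ℂ ⊗ H_dR(W) → Hom(H_B(W)^∨, ℂ)` is surjective (`c.bij`), so there is a combination of the
`c.per W ω` with value `≠ 0` at `γ ≠ 0` (there is a `ℚ`-linear map `H_B(W)^∨ → ℂ` which does not
vanish at `γ`); so the span is not `0`, and it is finite-dimensional (image of `HdR(W)`). (4) the
same with `fw N ≤ row γ` (`Submodule.finrank_mono`, `Submodule.map_mono`); the last claim: `z` is in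
`map ev (fw N) ≤ map ev (row γ)`. (5) `fw W` is spanned by `b^2` elements, `b = dim HB(W)`:
`EndBetti HB W` is a subspace of `End(HB(W))` (`Module.finrank_linearMap`). -/
def S_cmp (c : Comparison HdR HB) : Prop := [Linear ℚ A] →
  (∀ (W : A) (γ : BDual HB W), cycleIndependent c γ ≤ cycleExpected HB γ) ∧
  (∀ (W : A) (γ : BDual HB W), cycleExpected HB γ ≤ Nf HB W ∧ cycleIndependent c γ ≤ Pf c W) ∧
  (∀ (W : A) (γ : BDual HB W), γ ≠ 0 → 1 ≤ cycleIndependent c γ) ∧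
  (∀ {S : A → Prop}, TClosed S → ∀ {N W : A} (hN : S N) (hW : S W) (γ : BDual HB W),
    fw HdR HB hN ≤ row HdR HB hW γ → Nf HB N ≤ cycleExpected HB γ ∧
      Pf c N ≤ cycleIndependent c γ ∧ ∀ z ∈ c.Per N, ∃ ω : HdR.obj W, c.val ω γ = z) ∧
  (∀ W : A, Nf HB W ≤ Module.finrank ℚ (HB.obj W) ^ 2)

/-- [GC sem] The dimension of (a part of) a row, or of its image under a linear map, is lower
semicontinuous in the cycle. Uses `S_semi` (for the universes of `J = Ω`), `S_arel`, `S_fwfin`.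

Proof. Let `b = Module.finBasis ℚ (HB.obj W)`; `γ = ∑_i γ(b i) • b.coord i`, so
`e(asym W ω γ) = ∑_i (γ(b i) : QBar) • e(asym W ω (b.coord i))` (`S_arel`). Apply `S_semi` with
`J = Ω` (as a subtype), `φ(ω, i) = e(asym W ω (b.coord i))`, `F = (fw W).map e`,
`x0 i = γ0(b i)`. The polynomial is nonzero because its value at `x0` is. -/
def S_sem (HdR : A ⥤ ModuleCat.{0} QBar) (HB : A ⥤ ModuleCat.{0} ℚ) [FibreFunctor HdR]
    [FibreFunctor HB] : Prop :=
  ∀ {S : A → Prop} {W : A} (hW : S W) (L : Type w) [AddCommGroup L] [Module QBar L]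
    (e : PerAlg HdR HB S →ₗ[QBar] L) (Ω : Set (HdR.obj W)) (γ0 : BDual HB W),
    ForGeneric HB W (fun γ =>
      Module.finrank QBar (Submodule.span QBar {r | ∃ ω ∈ Ω, r = e (asym HdR HB hW ω γ0)}) ≤
      Module.finrank QBar (Submodule.span QBar {r | ∃ ω ∈ Ω, r = e (asym HdR HB hW ω γ)}))

end Rows2

/-! ## E. independent copies -/

section Copies

variable {A : Type u} [Category.{v} A] [Abelian A] [MonoidalCategory A] [SymmetricCategory A]

omit [Abelian A] [MonoidalCategory A] [SymmetricCategory A] in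
/-- `W` contains `q` independent copies of `N` as direct summands (after applying `HB`). -/
def HasCopies (HB : A ⥤ ModuleCat.{0} ℚ) (N W : A) (q : ℕ) : Prop :=
  ∃ (ι : Fin q → (N ⟶ W)) (π : Fin q → (W ⟶ N)), ∀ (a b : Fin q) (y : HB.obj N),
    act HB (π b) (act HB (ι a) y) = if a = b then y else 0

omit [Abelian A] [MonoidalCategory A] [SymmetricCategory A] in
/-- `B` and `C` are independent direct summands of `X` (after applying `HB`). -/
def Splits (HB : A ⥤ ModuleCat.{0} ℚ) (X B C : A) : Prop :=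
  ∃ (i : B ⟶ X) (p : X ⟶ B) (j : C ⟶ X) (q : X ⟶ C),
    (∀ y : HB.obj B, act HB p (act HB i y) = y) ∧ (∀ y : HB.obj C, act HB q (act HB j y) = y) ∧
    (∀ y : HB.obj B, act HB q (act HB i y) = 0) ∧ (∀ y : HB.obj C, act HB p (act HB j y) = 0)

/-- [GC gen] If `W` contains `q ≥ dim fw N` copies of `N`, a generic row of `W` contains all
symbols of `N`. Uses `S_sel`, `S_row`, `S_sem`, `S_arel`, `S_fwfin`.

Proof. `fw N = ⨆ σ, row N σ` (`S_row`), so by `S_sel` there are `σ_a`, `a < q`, with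
`fw N = ⨆ a, row N σ_a`. Put `γ0 = ∑_b σ_b ∘ HB(π_b)`; `γ0 ∘ HB(ι_a) = ∑_b σ_b ∘ HB(π_b) ∘ HB(ι_a) =
σ_a`. Let `Ω = {H(ι_a) ω | a, ω ∈ H(N)}`. For every `γ`, `asym W (H(ι_a) ω) γ =
asym N ω (γ ∘ HB(ι_a)) ∈ fw N` (`S_arel`), so `V(γ) = span {asym W ω' γ | ω' ∈ Ω} ≤ fw N`, and
`V(γ0) = ⨆ a, row N σ_a = fw N`. By `S_sem` (`e = id`) `dim V(γ) ≥ dim V(γ0) = dim fw N` for generic
`γ`, so `fw N = V(γ) ≤ row W γ` (`Submodule.eq_of_le_of_finrank_le`). -/
def S_gen (HdR : A ⥤ ModuleCat.{0} QBar) (HB : A ⥤ ModuleCat.{0} ℚ) [FibreFunctor HdR]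
    [FibreFunctor HB] : Prop :=
  ∀ {S : A → Prop} {N W : A} (hN : S N) (hW : S W) (q : ℕ), HasCopies HB N W q →
    Module.finrank QBar (fw HdR HB hN) ≤ q →
    ForGeneric HB W (fun γ => fw HdR HB hN ≤ row HdR HB hW γ)

/-- [GC nzd] A row of a nonzero cycle contains an element which is not a zero divisor and has
nonzero evaluation. Uses `S_row`, `S_pdec`, `S_fintype`, `S_nullst`, `S_decdom`, `S_pointbij`,
`S_genclosed`, `S_arel`.

Proof. Let `R = PerAlg HdR HB (Gen M)` with its decomposition `e_1, ..., e_r` (`S_pdec`).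
(1) For each `i` there is `z ∈ row X τ` with `e_i z ≠ 0`: `R / (1 - e_i)` is nontrivial (`S_decdom`),
so there is a maximal ideal containing `1 - e_i` and by `S_nullst` a point `x : R → QBar` with
`x(e_i) = 1` (as in `D/Perm.lean`). By `S_pointbij` (`Gen M` is `DClosed`: `S_genclosed`,
`Gen.dual`) there is `ω` with `x(asym X ω σ) = φ(σ)` for all `σ`, where `φ` is a `ℚ`-linear form
with `φ(τ) = 1` (`τ ≠ 0`; compose with `ℚ → QBar`). So `x(e_i asym X ω τ) = 1`.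
(2) There is `z ∈ row X τ` with `ev z ≠ 0`: `c.bij` as in `S_cmp` (3): there is `ω` with
`c.val ω τ ≠ 0`.
(3) The subspace `row X τ` over the infinite field `QBar` is not the union of the finitely many
proper subspaces `{z | e_i z = 0}`, `{z | ev z = 0}` (`Subspace.biUnion_ne_univ_of_top_notMem` or
the argument of `exists_generic` in `G/Catal.lean`), so there is `z` outside of all of them. If
`z x = 0` then `e_i (z x) = 0`, so `e_i x = 0` for all `i` (`dom`), so `x = 0` (`sum`). -/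
def S_nzd [RigidCategory A] {HdR : A ⥤ ModuleCat.{0} QBar} {HB : A ⥤ ModuleCat.{0} ℚ}
    [FibreFunctor HdR] [FibreFunctor HB] (c : Comparison HdR HB) : Prop :=
  ∀ (M : A) {X : A} (hX : Gen M X) (τ : BDual HB X), τ ≠ 0 →
    ∃ z ∈ row HdR HB hX τ, (∀ x, z * x = 0 → x = 0) ∧ c.evAlg (Gen M) z ≠ 0

/-- [GC genz] If `W` contains `q ≥ dim fw N` copies of `N ⊗ X`, `X ≠ 0`, then a generic row of
`W` has at least the dimension of `fw N`, and so has its evaluation. Uses `S_sel`, `S_row`,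
`S_rev`, `S_sem` (for `L = PerAlg` and for `L = ℂ`), `S_nzd`, `S_algrel`, `S_arel`, `S_fwfin`.

Proof. `X ≠ 0` so `HB(X) ≠ 0` (`HB` is faithful); let `τ ≠ 0` in `HB(X)^∨` and `z = asym X ξ τ` as in
`S_nzd`. As in `S_gen` choose `σ_a` with `fw N = ⨆ a, row N σ_a` and put
`γ0 = ∑_b (σ_b ⊠ τ) ∘ HB(π_b)` (`tdual`); `γ0 ∘ HB(ι_a) = σ_a ⊠ τ`, so
`asym W (H(ι_a)(mul ω ξ)) γ0 = asym (N ⊗ X) (mul ω ξ) (σ_a ⊠ τ) = asym N ω σ_a * z`
(`S_arel`, `S_algrel`). So `row W γ0` contains `z * fw N`, i.e. `(fw N).map (mulLeft z)`, which has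
the dimension of `fw N` as `z` is not a zero divisor, and the evaluation of `row W γ0` contains
`ev(z) ev(fw N)`, which has the dimension of `ev(fw N)` as `ev(z) ≠ 0`. Now `S_sem` with
`Ω = univ` and `e = id`, resp. `e = evAlg`. -/
def S_genz [RigidCategory A] {HdR : A ⥤ ModuleCat.{0} QBar} {HB : A ⥤ ModuleCat.{0} ℚ}
    [FibreFunctor HdR] [FibreFunctor HB] (c : Comparison HdR HB) : Prop :=
  ∀ (M : A) {N X W : A} (hN : Gen M N) (_ : Gen M X) (hW : Gen M W) (q : ℕ), ¬ IsZero X →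
    HasCopies HB (N ⊗ X) W q → Module.finrank QBar (fw HdR HB hN) ≤ q →
    ForGeneric HB W (fun γ =>
      Module.finrank QBar (fw HdR HB hN) ≤ Module.finrank QBar (row HdR HB hW γ) ∧
      Module.finrank QBar ((fw HdR HB hN).map (c.evAlg (Gen M)).toLinearMap) ≤
        Module.finrank QBar ((row HdR HB hW γ).map (c.evAlg (Gen M)).toLinearMap))

/-- [GC cop] Calculus of copies.

Proof. (1) `ι = e.hom`, `π = e.inv`. (2) `ι (a, b) = ι_a ≫ ι'_b`, `π (a, b) = π'_b ≫ π_a`, indexed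
by `Fin p × Fin q ≃ Fin (p * q)` (`finProdFinEquiv`). (3) `ι (a, b) = ι_a ⊗ₘ ι'_b`,
`π (a, b) = π_a ⊗ₘ π'_b`; `mul_nat`, and the elements `mul x y` span `HB(N ⊗ X)` (`bij`). (4) restrict
the families (`Fin.castLE`). (5) the families `ι_a ≫ i`, `p ≫ π_a` (`a < m`) and `ι'_b ≫ j`,
`q ≫ π'_b` (`b < n`), indexed by `Fin m ⊕ Fin n ≃ Fin (m + n)` (`finSumFinEquiv`, `Fin.addCases`).
(6) `𝟙 ⊗ₘ i` etc. -/
def S_cop (HB : A ⥤ ModuleCat.{0} ℚ) [FibreFunctor HB] : Prop :=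
  (∀ N N' : A, (N ≅ N') → HasCopies HB N N' 1) ∧
  (∀ (N N' W : A) (p q : ℕ), HasCopies HB N N' p → HasCopies HB N' W q →
    HasCopies HB N W (p * q)) ∧
  (∀ (N N' X X' : A) (p q : ℕ), HasCopies HB N N' p → HasCopies HB X X' q →
    HasCopies HB (N ⊗ X) (N' ⊗ X') (p * q)) ∧
  (∀ (N W : A) (p q : ℕ), p ≤ q → HasCopies HB N W q → HasCopies HB N W p) ∧
  (∀ (N B C X : A) (m n : ℕ), Splits HB X B C → HasCopies HB N B m → HasCopies HB N C n →
    HasCopies HB N X (m + n)) ∧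
  (∀ N X B C : A, Splits HB X B C → Splits HB (N ⊗ X) (N ⊗ B) (N ⊗ C))

/-- [GC pas] Pascal's triangle. Uses `S_cop`.

Proof. Induction on `n = i + j` (state it for all `n`, `i`, `j` with `i + j = n`). `n = 0`:
`1 ⊗ 1 ≅ 1 = tpow X 0`, `choose 0 0 = 1`. `n + 1`: `tpow X (n + 1) = X^n ⊗ X` splits into `X^n ⊗ B` and
`X^n ⊗ C` (`S_cop` (6)). If `i ≥ 1`: `X^n` contains `choose n j` copies of `B^{i-1} ⊗ C^j`, so
`X^n ⊗ B` contains `choose n j` copies of `(B^{i-1} ⊗ C^j) ⊗ B ≅ B^i ⊗ C^j` (braiding,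
associators). If `j ≥ 1`: `X^n ⊗ C` contains `choose n (j-1)` copies of
`(B^i ⊗ C^{j-1}) ⊗ C ≅ B^i ⊗ C^j`. Now `choose (n+1) j = choose n (j-1) + choose n j` (`S_cop` (5)); for
`i = 0` or `j = 0` use only one of the two (the zero number of copies of the other:
`HasCopies HB N W 0` is trivial, and `choose n j = 0` for `j = n + 1`; `choose (n+1) 0 = 1`). -/
def S_pas (HB : A ⥤ ModuleCat.{0} ℚ) [FibreFunctor HB] : Prop :=
  ∀ X B C : A, Splits HB X B C → ∀ i j : ℕ,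
    HasCopies HB (tpow B i ⊗ tpow C j) (tpow X (i + j)) (Nat.choose (i + j) j)

/-- The object `1 ⊕ M`. -/
abbrev uT (M : A) : A := 𝟙_ A ⊞ M

/-- [GC ucop] `(1 ⊕ M)^{⊗ n}` contains `choose n j` copies of `M^{⊗ j}`. Uses `S_cop`, `S_pas`.

Proof: `1 ⊕ M` splits into `1` and `M` (`biprod.inl`, `biprod.fst`, ...; `HB` is additive), and
`tpow 1 i ⊗ tpow M j ≅ tpow M j` (`tpow 1 i ≅ 1` by induction); apply `S_pas` with `i = n - j`. -/
def S_ucop (HB : A ⥤ ModuleCat.{0} ℚ) [FibreFunctor HB] : Prop :=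
  ∀ (M : A) (n j : ℕ), j ≤ n → HasCopies HB (tpow M j) (tpow (uT M) n) (Nat.choose n j)

/-- [GC ext] `T ⊗ T` splits into a symmetric and an alternating part.

Proof. Let `β = β_ T T`, `β² = 1`. `B = kernel (β - 𝟙)`, `C = kernel (β + 𝟙)`, `i`, `j` the
inclusions; `p` is `1/2` times the lift of `𝟙 + β` (`(𝟙 + β)(β - 𝟙) = 0`), `q` is `1/2` times the lift
of `𝟙 - β`. Then `p ≫ i = (𝟙 + β)/2`, so `(i ≫ p) ≫ i = i` (as `i ≫ β = i`) and `i ≫ p = 𝟙` as `i` is
mono; `(j ≫ p) ≫ i = j (𝟙 + β)/2 = 0`, so `j ≫ p = 0`, and similarly for `q`. `B ≠ 0`: for `x ≠ 0` in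
`HB(T)` the element `mul x x ≠ 0` (`bij`) is killed by `HB(β - 𝟙)` (`mul_comm`); if `B` were zero then
`β - 𝟙` would be mono and `HB(β - 𝟙)` injective. `C ≠ 0`: the same with `mul x y - mul y x ≠ 0` for
`x`, `y` linearly independent (`dim HB(T) ≥ 2`). -/
def S_ext (HB : A ⥤ ModuleCat.{0} ℚ) [FibreFunctor HB] : Prop := [Linear ℚ A] →
  ∀ T : A, 2 ≤ Module.finrank ℚ (HB.obj T) →
    ∃ (B C : A) (i : B ⟶ T ⊗ T) (j : C ⟶ T ⊗ T), Mono i ∧ Mono j ∧ ¬ IsZero B ∧ ¬ IsZero C ∧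
      Splits HB (T ⊗ T) B C

/-- [GC tiso] Tensor powers.
Proof: induction; or in the commutative monoid of the isomorphism classes of objects
(`iso_cls_eq`, `iso_cls_tensor`, `iso_cls_tpow` in `S/P/iso.lean`). -/
def S_tiso (A : Type u) [Category.{v} A] [MonoidalCategory A] [SymmetricCategory A] : Prop :=
  (∀ (T : A) (a b : ℕ), Nonempty (tpow T (a + b) ≅ tpow T a ⊗ tpow T b)) ∧
  (∀ (T : A) (r : ℕ), Nonempty (tpow (T ⊗ T) r ≅ tpow T (2 * r))) ∧
  (∀ (n : ℕ), Nonempty (tpow (𝟙_ A) n ≅ 𝟙_ A)) ∧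
  (∀ (T : A) (a r : ℕ), Nonempty (tpow T (a + 2 * r) ≅ tpow T a ⊗ tpow (T ⊗ T) r))

/-- [GC tcop] `T^{⊗ (m + 2r)}` contains `choose r (r/2)` copies of `T^{⊗ m} ⊗ X` for some `X ≠ 0`.
Uses `S_cop`, `S_pas`, `S_ext`, `S_tiso`.

Proof. `X = B^{⊗ (r - r/2)} ⊗ C^{⊗ (r/2)}` with `B`, `C` of `S_ext`; it is nonzero since
`HB(B)`, `HB(C)` are nonzero and `dim HB(M ⊗ N) = dim HB(M) dim HB(N)` (`bij`). By `S_pas`
`(T ⊗ T)^{⊗ r}` contains `choose r (r/2)` copies of `X`; tensor with one copy of `T^{⊗ m}` and use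
`S_tiso` and `S_cop`. `B`, `C` are subobjects of `T ⊗ T`, so they are in `⟨T⟩`. -/
def S_tcop (HB : A ⥤ ModuleCat.{0} ℚ) [FibreFunctor HB] : Prop :=
  [RigidCategory A] → [Linear ℚ A] → ∀ T : A, 2 ≤ Module.finrank ℚ (HB.obj T) → ∀ m r : ℕ,
    ∃ X : A, Gen T X ∧ ¬ IsZero X ∧
      HasCopies HB (tpow T m ⊗ X) (tpow T (m + 2 * r)) (Nat.choose r (r / 2))

end Copies

/-! ## F. generic rows of tensor powers -/

section Full

variable {A : Type u} [Category.{v} A] [Abelian A] [MonoidalCategory A] [SymmetricCategory A]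
  [RigidCategory A]

omit [SymmetricCategory A] in
theorem uT_mem (M : A) : Gen M (uT M) := Gen.sum Gen.unit Gen.base

omit [SymmetricCategory A] in
theorem uTpow_mem (M : A) (n : ℕ) : Gen M (tpow (uT M) n) := by
  induction n with
  | zero => exact Gen.unit
  | succ n ih => exact Gen.tensor ih (uT_mem M)

variable {HdR : A ⥤ ModuleCat.{0} QBar} {HB : A ⥤ ModuleCat.{0} ℚ} [FibreFunctor HdR]
  [FibreFunctor HB]

/-- [GC fwpow] `fw (T^{⊗ n}) = (fw T)^n`, bounds for its dimension, and `fw ((1 ⊕ M)^{⊗ m})`. Uses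
`S_fwprod`, `S_fwfin`, `S_fwdim`, `S_pow`, `S_arel`, `S_genclosed`.

Proof. (1) induction on `n`: `fw 1 = 1`, `fw (T^n ⊗ T) = fw (T^n) * fw T` (`S_fwprod`). (2)
`dim fw T = dim EndBetti T ≤ (dim HB(T))^2` (`S_fwdim`; `EndBetti` is a subspace of `End(HB(T))`),
then (1) and `S_pow`. (3) `fw (1 ⊕ M) ≤ fw 1 ⊔ fw M`: `asym (1 ⊕ M) ω σ =
asym 1 (H(fst) ω) (σ ∘ HB(inl)) + asym M (H(snd) ω) (σ ∘ HB(inr))` (`S_arel`; `ω = H(fst ≫ inl) ω +
H(snd ≫ inr) ω`). With `V = fw M`, `fw 1 = 1`: `fw ((1 ⊕ M)^m) ≤ (1 ⊔ V)^m ≤ ⨆_{j ≤ m} V^j`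
(induction: `(⨆_{j ≤ m} V^j) * (1 ⊔ V) ≤ ⨆_{j ≤ m+1} V^j`). -/
def S_fwpow (_ : Comparison HdR HB) : Prop := [Linear ℚ A] →
  (∀ {S : A → Prop}, TClosed S → ∀ {T : A} (hT : S T) (n : ℕ) (hn : S (tpow T n)),
    fw HdR HB hn = (fw HdR HB hT) ^ n) ∧
  (∀ {S : A → Prop}, TClosed S → ∀ {T : A} (_ : S T) (n : ℕ) (hn : S (tpow T n)),
    Module.finrank QBar (fw HdR HB hn) ≤
      Nat.multichoose ((Module.finrank ℚ (HB.obj T)) ^ 2) n) ∧
  (∀ (M : A) (m : ℕ), fw HdR HB (uTpow_mem M m) ≤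
    ⨆ j : Fin (m + 1), fw HdR HB (genpow_mem M j))

/-- [GC ufull] A generic row of `(1 ⊕ M)^{⊗ n}` contains all symbols of `(1 ⊕ M)^{⊗ m}` for all
`m ≤ n + 1 - b^2`, `b` the rank of `M`. Uses `S_gen`, `S_ucop`, `S_fwpow`, `S_mch`, `S_and`,
`S_genclosed`.

Proof. Let `b = dim HB(M)`. For `j ≤ n` with `j + b^2 ≤ n + 1` we have
`dim fw (M^j) ≤ multichoose (b^2) j ≤ choose n j` (`S_fwpow`, `S_mch`), so by `S_ucop` and `S_gen`
`fw (M^j) ≤ row γ` for generic `γ`; by `S_and` for generic `γ` this holds for all such `j`. Let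
`m + b^2 ≤ n + 1`. Each `j ≤ m` satisfies `j + b^2 ≤ n + 1`, and `j ≤ n` except possibly if `b = 0` and
`j = n + 1`; in this case `fw (M^j)` is `0` (`dim ≤ multichoose 0 (n + 1) = 0`). So
`fw ((1 ⊕ M)^m) ≤ ⨆_{j ≤ m} fw (M^j) ≤ row γ`. -/
def S_ufull (_ : Comparison HdR HB) : Prop := [Linear ℚ A] → ∀ (M : A) (n : ℕ),
  ForGeneric HB (tpow (uT M) n) (fun γ => ∀ m : ℕ,
    m + (Module.finrank ℚ (HB.obj M)) ^ 2 ≤ n + 1 →
      fw HdR HB (uTpow_mem M m) ≤ row HdR HB (uTpow_mem M n) γ)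

/-- [GC gfull] The graded form, for an arbitrary nonzero object `T`. Uses `S_genz`, `S_tcop`,
`S_cop`, `S_fwpow`, `S_and`, `S_rk`, `S_rev`, `S_cmp`, `S_fwdim`, `S_fwev`, `S_genclosed`.

Proof. `b = dim HB(T)`. If `b = 1`: every `T^{⊗ m}` has rank one, so `Nf (T^m) ≤ 1`, `Pf (T^m) ≤ 1`
(`S_cmp` (5), and `Pf ≤ Nf`: `S_fwdim`, `S_fwev`), and for `γ ≠ 0`, which is generic because
`HB(W) ≠ 0` (it contains a copy of `HB(T^n ⊗ D) ≠ 0`), `1 ≤ cycleIndependent ≤ cycleExpected`.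
If `b ≥ 2`: let `(m, r)` be one of the finitely many pairs with `m + 2 r = n` and
`multichoose (b^2) m ≤ choose r (r/2)` (use `S_and` (4) for `r < n + 1`). With `X` of `S_tcop`,
`(T^m ⊗ X) ⊗ D ≅ T^m ⊗ (X ⊗ D)`, `T^n ⊗ D` and so `W` contains `choose r (r/2)` copies of
`T^m ⊗ (X ⊗ D)`, and `X ⊗ D ≠ 0` (`bij`). Let `M = T ⊞ (D ⊞ W)`; all objects are in `⟨M⟩`
(`S_genclosed`). `dim fw (T^m) ≤ multichoose (b^2) m ≤ choose r (r/2)` (`S_fwpow`), so `S_genz`
applies, and by `S_rk`, `S_rev`, `S_fwdim`, `S_fwev` the conclusion is the claim. -/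
def S_gfull (c : Comparison HdR HB) : Prop := [Linear ℚ A] → ∀ (T D W : A) (n : ℕ),
  1 ≤ Module.finrank ℚ (HB.obj T) → ¬ IsZero D → HasCopies HB (tpow T n ⊗ D) W 1 →
  ForGeneric HB W (fun γ => ∀ m r : ℕ, m + 2 * r = n →
    Nat.multichoose ((Module.finrank ℚ (HB.obj T)) ^ 2) m ≤ Nat.choose r (r / 2) →
      Nf HB (tpow T m) ≤ cycleExpected HB γ ∧ Pf c (tpow T m) ≤ cycleIndependent c γ)

/-- [GC ggrow] Growth of the predicted numbers of the tensor powers of an arbitrary object. Uses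
`S_ghilb`, `S_fwpow`, `S_fwdim`, `S_fwfin`, `S_genclosed`.

Proof: `Nf (T^n) = dim fw (T^n) = dim (fw T)^n` in `PerAlg ⟨T⟩`. -/
def S_ggrow (_ : Comparison HdR HB) : Prop := [Linear ℚ A] → ∀ (T : A) (N : ℕ),
  Nf HB T ≤ N + 1 → ∀ n : ℕ,
    (n + 1) * Nf HB (tpow T (n + 1)) ≤ (n + 1 + N) * Nf HB (tpow T n)

/-- [GC gdim] If the dimension formula fails for `M` it fails for all `T` which contain
`U ⊗ R` for a suitable `U` and some `R ≠ 0`, with a bound for the defect (compare `dim_fail`). -/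
def S_gdim (c : Comparison HdR HB) : Prop := [Linear ℚ A] → ∀ M : A, ¬ DimFormula c M →
  ∃ U : A, ∀ T R : A, ¬ IsZero R → Lin T (U ⊗ R) → ∀ n : ℕ,
    Pf c (tpow T (n + 1)) + Nf HB (tpow T n) ≤ Nf HB (tpow T (n + 1))

/-- [GC gcomp] Upper bound by the number of components (compare `comp_bound`). -/
def S_gcomp (c : Comparison HdR HB) : Prop := [Linear ℚ A] → ∀ M : A,
  ∃ U : A, ∀ T R : A, ¬ IsZero R → Lin T (U ⊗ R) → ∃ D : ℕ → ℕ,
    (∀ n, Pf c (tpow T n) ≤ D n) ∧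
    (∀ n, ncomp HdR HB M * D n ≤ Nf HB (tpow T (n + 1))) ∧
    (∀ N, Nf HB T ≤ N + 1 → ∀ n, (n + 1) * D (n + 1) ≤ (n + 1 + N) * D n)

/-- [GC rperm] The factors of the formal period algebra of `⟨M⟩` are permuted transitively by
automorphisms which preserve all rows. Uses `S_trans`, `S_nullst`, `S_fintype`, `S_genclosed`,
`S_decdom`.

Proof: exactly as for `S_perm` (see `D/Perm.lean`, copy it); the automorphism `τ` of `S_trans`
satisfies `τ(asym W ω σ) = asym W (θ ω) σ` with `θ` bijective, so it maps every row onto itself. -/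
def S_rperm (HdR : A ⥤ ModuleCat.{0} QBar) (HB : A ⥤ ModuleCat.{0} ℚ)
    [FibreFunctor HdR] [FibreFunctor HB] : Prop :=
  ∀ (M : A) (r : ℕ) (e : Fin r → PerAlg HdR HB (Gen M)), Dec (PerAlg HdR HB (Gen M)) r e →
  ∀ i j, ∃ τ : PerAlg HdR HB (Gen M) ≃ₐ[QBar] PerAlg HdR HB (Gen M), τ (e i) = e j ∧
    ∀ {W : A} (hW : Gen M W) (γ : BDual HB W),
      (row HdR HB hW γ).map τ.toLinearMap = row HdR HB hW γ

/-- [GC rat] If the dimension formula holds for `M` then for every cycle of an object of `⟨M⟩`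
the number of independent integrals is at least `1 / ncomp M` times the expected number. Uses
`S_rperm`, `S_pdec`, `S_dims`, `S_comps`, `S_cut`, `S_evcut`, `S_injdim`, `S_rk`, `S_rev`, `S_row`,
`S_fintype`, `S_genclosed`.

Proof (compare the last part of `core` in `D/Law.lean`). Let `e_1, ..., e_r` be the decomposition
(`S_pdec`), `r = ncomp M` (`S_comps`), `F = row W γ`, finite-dimensional (`S_row`). By `S_evcut`
there is `i0` with `ev(e_i0) = 1`. The dimension formula gives `t = g` in `S_dims`, so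
`ringKrullDim ev.range = ringKrullDim (R / (1 - e_i0))` and by `S_injdim` `ev` is injective on
`e_i0 R`, so `dim ev(F) = dim comp e_i0 F` (`S_evcut`). `dim F ≤ ∑_i dim comp e_i F` (`S_cut`), and all
summands are equal (`S_cut`, `S_rperm`). So `dim F ≤ r dim ev(F)`; `S_rk`, `S_rev`. -/
def S_rat (c : Comparison HdR HB) : Prop := [Linear ℚ A] → ∀ M : A, DimFormula c M →
  ∀ W : A, Gen M W → ∀ γ : BDual HB W,
    cycleExpected HB γ ≤ ncomp HdR HB M * cycleIndependent c γ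

/-- [GC all] All periods of `W` as integrals over one cycle for a power of `W`. Uses `S_row`,
`S_rev`, `S_rk`, `S_fwdim`, `S_fwev`, `S_arel`, `S_genclosed`.

Proof. Let `b = Module.finBasis ℚ (HB.obj W)`, `W' = ⨁ fun _ : Fin n => W` with `n = dim HB(W)`, and
`γ = ∑_l b.coord l ∘ HB(biproduct.π _ l)`. `W' ∈ ⟨M⟩` (`S_genclosed`: `W' ∈ Lin W ⊆ ⟨W⟩ ⊆ ⟨M⟩`).
`γ ∘ HB(ι_l) = b.coord l`, so `asym W' (H(ι_l) ω) γ = asym W ω (b.coord l)` (`S_arel`), so
`row W' γ` contains the span of all `asym W ω (b.coord l)`, which is `fw W` (the `b.coord l` span the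
dual). Conversely `asym W' ω γ = ∑_l asym W (H(π_l) ω) (b.coord l) ∈ fw W`. So `row W' γ = fw W` and
the claim follows from `S_rk`, `S_rev`, `S_fwdim`, `S_fwev` (`S = Gen M`). -/
def S_all (c : Comparison HdR HB) : Prop := [Linear ℚ A] → ∀ M W : A, Gen M W →
  ∃ (W' : A) (γ : BDual HB W'), Gen M W' ∧ cycleExpected HB γ = Nf HB W ∧
    cycleIndependent c γ = Pf c W

/-- [GC lift] In the semisimple case, if the row of `γ` contains all symbols of `B` then every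
cycle for `B` is the inverse image of `γ` under a morphism. Uses `S_row`, `S_arel`, `S_vans`,
`S_genclosed`.

Proof. Let `ω_1, ..., ω_n` be a basis of `HdR(B)`. `asym B ω_l s ∈ fw B ≤ row γ`, so there is `η_l`
with `asym B ω_l s = asym W η_l γ` (`S_row` (2)). In `X = B ⊞ W` let `ξ_l = H(inl) ω_l - H(inr) η_l`
and `ρ = s ∘ HB(fst) + γ ∘ HB(snd)`. Then `asym X ξ_l ρ = asym B ω_l s - asym W η_l γ = 0`
(`S_arel`: `ρ ∘ HB(inl) = s`, `ρ ∘ HB(inr) = γ`), so by `S_vans` there is a mono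
`i_l : N_l ⟶ X` with `ξ_l = H(i_l) ξ'_l` and `ρ ∘ HB(i_l) = 0`. Let `N = ⨁_l N_l`, and
`i : N ⟶ X` the morphism with components `i_l` (`biproduct.desc`); `ρ ∘ HB(i) = 0`
(`𝟙 = ∑ π_l ≫ ι_l`). `g = i ≫ fst : N ⟶ B` is epi: `H(g)(H(ι_l) ξ'_l) = H(fst) ξ_l = ω_l`, so
`H(g)` is surjective, and `H` reflects epimorphisms (faithful). `N ∈ ⟨T⟩` (each `N_l` is a subobject
of `B ⊞ W ∈ ⟨T⟩`; finite sums: `S_genclosed`, `Closed`). In a semisimple category an epimorphism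
`g` splits: its kernel `κ : ker g ⟶ N` has a retraction `ρ'`, `κ ≫ ρ' = 𝟙`, so
`𝟙 - ρ' ≫ κ` factors through `g` (`g` is the cokernel of `κ`): `𝟙 - ρ' ≫ κ = g ≫ h`, and
`h ≫ g = 𝟙` (cancel the epi `g`: `g ≫ h ≫ g = g`). Put `f = - (h ≫ i ≫ snd) : B ⟶ W`. For
`y ∈ HB(B)`: `0 = ρ(HB(h ≫ i) y) = s(HB(h ≫ i ≫ fst) y) + γ(HB(h ≫ i ≫ snd) y) =
s(y) - γ(HB(f) y)`. -/
def S_lift (HdR : A ⥤ ModuleCat.{0} QBar) (HB : A ⥤ ModuleCat.{0} ℚ)
    [FibreFunctor HdR] [FibreFunctor HB] : Prop := [Linear ℚ A] →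
  ∀ T : A, SemisimpleGen T → ∀ {B W : A} (hB : Gen T B) (hW : Gen T W) (γ : BDual HB W),
    fw HdR HB hB ≤ row HdR HB hW γ → ∀ s : BDual HB B, ∃ f : B ⟶ W, γ.pull f = s

/-- The law for one generic cycle on each member of a sequence (assembled from the pieces). -/
def S_glaw (c : Comparison HdR HB) : Prop := [Linear ℚ A] → ∀ (T W D : ℕ → A) (n : ℕ → ℕ),
  (∀ k, ∃ D' : A, Nonempty (D k ⊗ D' ≅ 𝟙_ A)) →
  (∀ k, Nonempty (W k ≅ tpow (T k) (n k + 1) ⊗ D k)) →
  (∀ N : A, ∃ k0, ∀ k, k0 ≤ k → ∃ R : A, ¬ IsZero R ∧ Lin (T k) (N ⊗ R)) →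
  Tendsto (fun k => (n k : ℝ) / ((Module.finrank ℚ (HB.obj (T k)) : ℝ) ^ 4 *
    Real.log ((n k : ℝ) + 2))) atTop atTop →
  ∃ G : ∀ k, BDual HB (W k) → Prop, (∀ k, ForGeneric HB (W k) (G k)) ∧
    ∀ γ : ∀ k, BDual HB (W k), (∀ k, G k (γ k)) →
      ((∀ M : A, DimFormula c M) →
        Tendsto (fun k => (cycleIndependent c (γ k) : ℝ) / cycleExpected HB (γ k)) atTop
          (nhds (⨅ M : A, (1 : ℝ) / ncomp HdR HB M))) ∧
      ((∃ M : A, ¬ DimFormula c M) →
        Tendsto (fun k => (cycleIndependent c (γ k) : ℝ) / cycleExpected HB (γ k)) atTop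
          (nhds 0)) ∧
      (∀ δ : ℝ, 0 < δ → List.TFAE [
        ∀ M : A, DimFormula c M ∧ δ * (ncomp HdR HB M : ℝ) ≤ 1,
        ∀ (W' : A) (γ' : BDual HB W'),
          δ * (cycleExpected HB γ' : ℝ) ≤ cycleIndependent c γ',
        ∃ᶠ k in atTop, δ * (cycleExpected HB (γ k) : ℝ) ≤ cycleIndependent c (γ k)]) ∧
      List.TFAE [
        ∀ M : A, PeriodConjecture c M,
        ∀ k, cycleIndependent c (γ k) = cycleExpected HB (γ k),
        ∃ δ : ℝ, 1 / 2 < δ ∧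
          ∃ᶠ k in atTop, δ * (cycleExpected HB (γ k) : ℝ) ≤ cycleIndependent c (γ k)]

end Full

end

end Pool.Agent.Lib.MP_ae0f86_nt.GC
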