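import Pool.Agent.Lib.MP_ae0f86_nt.G.Embed
import Pool.Agent.Lib.MP_ae0f86_nt.GC.Stm

/-!
# MP_ae0f86_nt : uniform estimates for tensor powers without unit
-/

open CategoryTheory CategoryTheory.Limits Opposite MonoidalCategory Filter

universe w v u

namespace Pool.Agent.Lib.MP_ae0f86_nt.GC

noncomputable section

attribute [local instance] CategoryTheory.Abelian.hasFiniteBiproducts

section Alg

variable {K : Type} [Field K] {R : Type w} [CommRing R] [Algebra K R]

/-- Variant of `cut_sum_le` for an element which is not a zero divisor. -/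
theorem cut_sum_le' {r' : ℕ} (e' : Fin r' → R) (hid : ∀ k, e' k * e' k = e' k)
    (hor : ∀ k l, k ≠ l → e' k * e' l = 0) (F F' : Submodule K R) [Module.Finite K F]
    [Module.Finite K F'] (z : R) (hz : ∀ x, z * x = 0 → x = 0)
    (hF' : ∀ k, z * e' k ∈ F') :
    ∑ k, Module.finrank K (cut_mul (e' k) F) ≤ Module.finrank K ↥(F' * F) := by
  have : Module.Finite K ↥(F' * F) := Module.Finite.iff_fg.2
    (Submodule.FG.mul (Module.Finite.iff_fg.1 inferInstance) (Module.Finite.iff_fg.1 inferInstance))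
  have : ∀ i, Module.Finite K (cut_mul (e' i) F) := fun i => Module.Finite.map _ _
  rw [← Module.finrank_pi_fintype]
  have hle : ∀ k, ∀ x ∈ cut_mul (e' k) F, z * x ∈ F' * F := by
    rintro k _ ⟨a, ha, rfl⟩
    rw [LinearMap.mulLeft_apply, ← mul_assoc]
    exact Submodule.mul_mem_mul (hF' k) ha
  let g : (∀ k, cut_mul (e' k) F) →ₗ[K] ↥(F' * F) :=
    ∑ k, ((LinearMap.mulLeft K z).restrict (hle k)) ∘ₗ LinearMap.proj k
  refine LinearMap.finrank_le_finrank_of_injective (f := g) ?_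
  rw [← LinearMap.ker_eq_bot, LinearMap.ker_eq_bot']
  intro x h
  have h1 : ∑ k, z * (x k : R) = 0 := by
    have h2 := congrArg (Submodule.subtype (F' * F)) h
    rw [map_zero] at h2
    rw [← h2]
    simp only [g, LinearMap.sum_apply, map_sum, LinearMap.comp_apply, LinearMap.proj_apply]
    rfl
  rw [← Finset.mul_sum] at h1
  have h1' := hz _ h1
  funext k
  apply Subtype.ext
  change (x k : R) = 0
  have hx : ∀ i, ∃ a, (x i : R) = e' i * a := by
    intro i
    obtain ⟨a, _, ha⟩ := (x i).2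
    exact ⟨a, ha.symm⟩
  have h3 : e' k * ∑ i, (x i : R) = (x k : R) := by
    rw [Finset.mul_sum, Finset.sum_eq_single k]
    · obtain ⟨a, ha⟩ := hx k
      rw [ha, ← mul_assoc (e' k), hid]
    · intro i _ hij
      obtain ⟨a, ha⟩ := hx i
      rw [ha, ← mul_assoc (e' k), hor k i hij.symm, zero_mul]
    · intro h
      exact absurd (Finset.mem_univ k) h
  rw [← h3, h1', mul_zero]

/-- The growth of the restriction of `V ^ n` to the component `e`. -/
theorem cut_growth' (hghilb : S_ghilb.{w}) {e : R} (he : e * e = e) (V : Submodule K R)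
    [Module.Finite K V] (N : ℕ) (hN : Module.finrank K V ≤ N + 1) (n : ℕ) :
    (n + 1) * Module.finrank K (cut_mul e (V ^ (n + 1))) ≤
      (n + 1 + N) * Module.finrank K (cut_mul e (V ^ n)) := by
  have hI := fun a => idem_span he a
  have h4 : ∀ n, comp K e (V ^ n) = (comp K e V) ^ n := fun n => Submodule.map_pow _ _ _
  have : Module.Finite K (comp K e V) := Module.Finite.map _ _
  have h6 : Module.finrank K (comp K e V) ≤ N + 1 := (Submodule.finrank_map_le _ _).trans hN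
  have h7 := hghilb K _ (comp K e V) N h6 n
  rw [← h4, ← h4] at h7
  rwa [cut_finrank e he hI, cut_finrank e he hI] at h7

end Alg

section Cats

variable {A : Type u} [Category.{v} A] [Abelian A] [MonoidalCategory A] [SymmetricCategory A]
  [RigidCategory A] {HdR : A ⥤ ModuleCat.{0} QBar} {HB : A ⥤ ModuleCat.{0} ℚ}
  [FibreFunctor HdR] [FibreFunctor HB]

omit [RigidCategory A] in
theorem exists_dual_ne (HB : A ⥤ ModuleCat.{0} ℚ) [FibreFunctor HB] {Q : A} (hQ : ¬ IsZero Q) :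
    ∃ τ : BDual HB Q, τ ≠ 0 := by
  by_contra hcon
  push Not at hcon
  apply hQ
  have hfin : Module.Finite ℚ (HB.obj Q) := FibreFunctor.finite (H := HB) Q
  have hx : ∀ x : HB.obj Q, x = 0 := by
    intro x
    rw [← Module.forall_dual_apply_eq_zero_iff ℚ x]
    intro f
    rw [hcon f]
    rfl
  rw [IsZero.iff_id_eq_zero]
  apply HB.map_injective
  rw [HB.map_id, HB.map_zero]
  ext x
  exact hx _

/-- Every element of the formal period algebra is in some `fw U`. -/
theorem exists_fw (HdR : A ⥤ ModuleCat.{0} QBar) (HB : A ⥤ ModuleCat.{0} ℚ)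
    [FibreFunctor HdR] [FibreFunctor HB] (M : A) (x : PerAlg HdR HB (Gen M)) :
    ∃ (U : A) (hU : Gen M U), x ∈ fw HdR HB hU := by
  have hgc : S_genclosed (A := A) := a_genclosed
  have hMc := hgc.1 M
  obtain ⟨y, rfl⟩ := (a_fpring (A := A) HdR HB (Gen M) hMc).2 x
  obtain ⟨N, hN, ω, σ, rfl⟩ := a_single HdR HB (Gen M) hMc.toClosed y
  refine ⟨N, hN, ?_⟩
  rw [(a_algrel (A := A) HdR HB (Gen M)).1 hN ω σ]
  exact Submodule.subset_span ⟨ω, σ, rfl⟩

/-- The ambient category `⟨M ⊞ (T ⊞ Q)⟩`. -/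
theorem ambient (c : Comparison HdR HB) (hnzd : S_nzd c) (M U T Q : A)
    (hQ : ¬ IsZero Q) (hT : Lin T (U ⊗ Q)) :
    ∃ (B : A) (_ : Gen B M) (hBT : Gen B T) (r : ℕ) (e : Fin r → PerAlg HdR HB (Gen B)),
      Dec (PerAlg HdR HB (Gen B)) r e ∧
      ∃ z : PerAlg HdR HB (Gen B), (∀ x, z * x = 0 → x = 0) ∧
        ∀ x : PerAlg HdR HB (Gen B), ∀ hBU : Gen B U, x ∈ fw HdR HB hBU →
          x * z ∈ fw HdR HB hBT := by
  have hgc : S_genclosed (A := A) := a_genclosed
  set B : A := M ⊞ (T ⊞ Q) with hB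
  have hBM : Gen B M := Gen.sub (biprod.inl : M ⟶ M ⊞ (T ⊞ Q)) Gen.base
  have hBTQ : Gen B (T ⊞ Q) := Gen.sub (biprod.inr : (T ⊞ Q) ⟶ M ⊞ (T ⊞ Q)) Gen.base
  have hBT : Gen B T := Gen.sub (biprod.inl : T ⟶ T ⊞ Q) hBTQ
  have hBQ : Gen B Q := Gen.sub (biprod.inr : Q ⟶ T ⊞ Q) hBTQ
  obtain ⟨r, e, he⟩ := a_pdec HdR HB B
  obtain ⟨τ, hτ⟩ := exists_dual_ne HB hQ
  obtain ⟨z, hz, hz0, -⟩ := hnzd B hBQ τ hτ
  refine ⟨B, hBM, hBT, r, e, he, z, hz0, fun x hBU hx => ?_⟩
  have hzf : z ∈ fw HdR HB hBQ := by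
    refine Submodule.span_mono ?_ hz
    rintro _ ⟨ω, rfl⟩
    exact ⟨ω, τ, rfl⟩
  have hUQ : Gen B (U ⊗ Q) := Gen.tensor hBU hBQ
  have h1 : x * z ∈ fw HdR HB hUQ := by
    rw [(a_fwprod HdR HB).1 hBU hBQ hUQ]
    exact Submodule.mul_mem_mul hx hzf
  exact a_fwlin HdR HB (hgc.1 B).toClosed hUQ hBT hT h1

theorem p_gdim (c : Comparison HdR HB) (hfwpow : S_fwpow c) (hnzd : S_nzd c) : S_gdim c := by
  intro _ M hD
  have hgc : S_genclosed (A := A) := a_genclosed
  obtain ⟨r', e', he'⟩ := a_pdec HdR HB M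
  obtain ⟨k0, hk0⟩ := (d_evcut QBar (PerAlg HdR HB (Gen M)) r' e' he' ℂ (c.evAlg (Gen M))).1
  obtain ⟨-, g', t', hg', hgi', ht', -, htr'⟩ := a_dims c M r' e' he'
  obtain ⟨a, ha0, ha⟩ : ∃ a, c.evAlg (Gen M) (e' k0 * a) = 0 ∧ e' k0 * a ≠ 0 := by
    by_contra hcon
    push Not at hcon
    apply hD
    have hm := e_injdim2 d_decdom QBar (PerAlg HdR HB (Gen M)) r' e' he' ℂ (c.evAlg (Gen M)) k0
      hk0 hcon
    rw [ht', (hgi' k0).1] at hm
    unfold DimFormula
    rw [hg', htr', map_natCast, ← hm]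
    rfl
  set x := e' k0 * a + (1 - e' k0) with hx
  obtain ⟨U, hU, hxU⟩ := exists_fw HdR HB M x
  refine ⟨U, fun T Q hQ hT n => ?_⟩
  obtain ⟨B, hBM, hBT, r, e, he, z, hz0, hzT⟩ := ambient c hnzd M U T Q hQ hT
  obtain ⟨j, hj, hjfw, hjev, hjtr⟩ := g_embed c hBM he
  have hBc : TClosed (Gen B) := hgc.1 B
  have hBU : Gen B U := hgc.2.2.2 B M U hBM hU
  have hBTn : ∀ n, Gen B (tpow T n) := fun n => hgc.2.2.2 B T _ hBT (genpow_mem T n)
  have hN : ∀ {W : A} (hW : Gen B W), Module.finrank QBar (fw HdR HB hW) =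
      Nf HB W := fun hW => a_fwdim c hBc hW
  have hP : ∀ {W : A} (hW : Gen B W), (fw HdR HB hW).map (c.evAlg (Gen B)).toLinearMap =
      Submodule.span QBar (c.Per W) := fun hW => a_fwev c hW
  have hpowT : ∀ n, fw HdR HB (hBTn n) = (fw HdR HB hBT) ^ n := fun n =>
    hfwpow.1 hBc hBT n (hBTn n)
  set V := fw HdR HB hBT with hV
  have hVfin : Module.Finite QBar V := a_fwfin HdR HB hBT
  have hVn : ∀ n, Module.Finite QBar ↥(V ^ n) := fun n =>
    Module.Finite.iff_fg.2 (Submodule.FG.pow (Module.Finite.iff_fg.1 inferInstance) n)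
  have hF : j x * z ∈ V := by
    refine hzT (j x) hBU ?_
    rw [← hjfw hU hBU]
    exact ⟨x, hxU, rfl⟩
  have hF0 : c.evAlg (Gen B) (j x * z) = 0 := by
    rw [map_mul, hjev, hx, map_add, ha0, map_sub, hk0, map_one, sub_self, add_zero, zero_mul]
  have hne : ∀ k, e' k * x ≠ 0 := by
    intro k h1
    by_cases hk : k = k0
    · subst hk
      rw [hx, mul_add, ← mul_assoc, he'.idem, mul_sub, mul_one, he'.idem, sub_self,
        add_zero] at h1
      exact ha h1
    · rw [hx, mul_add, ← mul_assoc, he'.orth k k0 hk, zero_mul, mul_sub, mul_one,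
        he'.orth k k0 hk, sub_zero, zero_add] at h1
      exact he'.ne k h1
  have hnz : ∀ i, e i * (j x * z) ≠ 0 := by
    intro i h0
    obtain ⟨k, hk⟩ := tower_over j he he' i
    have h1 : e i * j x = 0 := by
      apply hz0
      rw [← h0]
      ring
    exact tower_nzd j hj he he' (fun i l => by
      obtain ⟨τ, τ', h1, h2, -⟩ := hjtr i l
      exact ⟨τ, τ', h1, h2⟩) i k hk _ (hne k) h1
  have h1 := ev_key V (V ^ n) ℂ (c.evAlg (Gen B)) _ hF hF0
  have h2 := full_mul he (V ^ n) _ hnz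
  have h3 := (Nat.add_le_add_left h2 _).trans h1
  rw [← pow_succ', ← hpowT (n + 1), ← hpowT n, hP, hN, hN] at h3
  exact h3

theorem p_gcomp (c : Comparison HdR HB) (hfwpow : S_fwpow c) (hnzd : S_nzd c)
    (hghilb : S_ghilb.{u}) : S_gcomp c := by
  intro _ M
  have hgc : S_genclosed (A := A) := a_genclosed
  obtain ⟨r', e', he'⟩ := a_pdec HdR HB M
  obtain ⟨k0, hk0⟩ := (d_evcut QBar (PerAlg HdR HB (Gen M)) r' e' he' ℂ (c.evAlg (Gen M))).1
  have hr' : ncomp HdR HB M = r' := (d_comps _ r' e' he').2.1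
  obtain ⟨U, hU, hUe⟩ := a_finpart HdR HB c M r' e' he'
  refine ⟨U, fun T Q hQ hT => ?_⟩
  obtain ⟨B, hBM, hBT, r, e, he, z, hz0, hzT⟩ := ambient c hnzd M U T Q hQ hT
  obtain ⟨j, hj, hjfw, hjev, hjtr⟩ := g_embed c hBM he
  have hBc : TClosed (Gen B) := hgc.1 B
  have hBU : Gen B U := hgc.2.2.2 B M U hBM hU
  have hBTn : ∀ n, Gen B (tpow T n) := fun n => hgc.2.2.2 B T _ hBT (genpow_mem T n)
  have hN : ∀ {W : A} (hW : Gen B W), Module.finrank QBar (fw HdR HB hW) =
      Nf HB W := fun hW => a_fwdim c hBc hW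
  have hP : ∀ {W : A} (hW : Gen B W), (fw HdR HB hW).map (c.evAlg (Gen B)).toLinearMap =
      Submodule.span QBar (c.Per W) := fun hW => a_fwev c hW
  have hpowT : ∀ n, fw HdR HB (hBTn n) = (fw HdR HB hBT) ^ n := fun n =>
    hfwpow.1 hBc hBT n (hBTn n)
  set V := fw HdR HB hBT with hV
  have hVfin : Module.Finite QBar V := a_fwfin HdR HB hBT
  have hVn : ∀ n, Module.Finite QBar ↥(V ^ n) := fun n =>
    Module.Finite.iff_fg.2 (Submodule.FG.pow (Module.Finite.iff_fg.1 inferInstance) n)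
  have hF : ∀ k, z * j (e' k) ∈ V := by
    intro k
    rw [mul_comm]
    refine hzT (j (e' k)) hBU ?_
    rw [← hjfw hU hBU, hUe]
    exact ⟨e' k, Submodule.subset_span ⟨k, rfl⟩, rfl⟩
  refine ⟨fun n => Module.finrank QBar (cut_mul (j (e' k0)) (V ^ n)), fun n => ?_, fun n => ?_,
    fun N hN' n => ?_⟩
  · have h1 := ev_cut (e := j (e' k0)) ℂ (c.evAlg (Gen B)) (by rw [hjev]; exact hk0) (V ^ n)
    rw [← hpowT n, hP, hpowT n] at h1
    exact h1
  · have h1 := cut_sum_le' (fun k => j (e' k)) (fun k => by rw [← map_mul, he'.idem])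
      (fun k l hkl => by rw [← map_mul, he'.orth k l hkl, map_zero]) (V ^ n) V
      z hz0 hF
    have h2 : ∀ k ∈ Finset.univ, Module.finrank QBar (cut_mul (j (e' k)) (V ^ n)) =
        Module.finrank QBar (cut_mul (j (e' k0)) (V ^ n)) := by
      intro k _
      obtain ⟨τ, h3, h4⟩ := tower_perm j hj he he'
        (fun τ => (V ^ n).map τ.toLinearMap = V ^ n) (fun i l => by
          obtain ⟨τ, τ', h1, h2, h3⟩ := hjtr i l
          refine ⟨τ, τ', h1, h2, ?_⟩
          rw [← hpowT]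
          exact h3 _) k k0
      exact cut_mul_perm (V ^ n) τ h3 h4
    rw [Finset.sum_congr rfl h2, Finset.sum_const, Finset.card_univ, Fintype.card_fin,
      smul_eq_mul, ← pow_succ', ← hpowT (n + 1), hN] at h1
    rw [hr']
    exact h1
  · exact cut_growth' hghilb (by rw [← map_mul, he'.idem]) V N (by rw [hN hBT]; exact hN') n

end Cats

end

end Pool.Agent.Lib.MP_ae0f86_nt.GC
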