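import Pool.Agent.Lib.MP_ae0f86_nt.GC.MSi
import Pool.Agent.Lib.MP_ae0f86_nt.GC.P.all
import Pool.Agent.Lib.MP_ae0f86_nt.GC.P.and
import Pool.Agent.Lib.MP_ae0f86_nt.GC.P.cmp
import Pool.Agent.Lib.MP_ae0f86_nt.GC.P.cop
import Pool.Agent.Lib.MP_ae0f86_nt.GC.P.ext
import Pool.Agent.Lib.MP_ae0f86_nt.GC.P.fwpow
import Pool.Agent.Lib.MP_ae0f86_nt.GC.P.gen
import Pool.Agent.Lib.MP_ae0f86_nt.GC.P.genz
import Pool.Agent.Lib.MP_ae0f86_nt.GC.P.gfull
import Pool.Agent.Lib.MP_ae0f86_nt.GC.P.ggrow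
import Pool.Agent.Lib.MP_ae0f86_nt.GC.P.ghilb
import Pool.Agent.Lib.MP_ae0f86_nt.GC.P.lift
import Pool.Agent.Lib.MP_ae0f86_nt.GC.P.mch
import Pool.Agent.Lib.MP_ae0f86_nt.GC.P.numa
import Pool.Agent.Lib.MP_ae0f86_nt.GC.P.numb
import Pool.Agent.Lib.MP_ae0f86_nt.GC.P.nzd
import Pool.Agent.Lib.MP_ae0f86_nt.GC.P.pas
import Pool.Agent.Lib.MP_ae0f86_nt.GC.P.pow
import Pool.Agent.Lib.MP_ae0f86_nt.GC.P.rat
import Pool.Agent.Lib.MP_ae0f86_nt.GC.P.rev
import Pool.Agent.Lib.MP_ae0f86_nt.GC.P.rk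
import Pool.Agent.Lib.MP_ae0f86_nt.GC.P.row
import Pool.Agent.Lib.MP_ae0f86_nt.GC.P.rperm
import Pool.Agent.Lib.MP_ae0f86_nt.GC.P.sel
import Pool.Agent.Lib.MP_ae0f86_nt.GC.P.sem
import Pool.Agent.Lib.MP_ae0f86_nt.GC.P.semi
import Pool.Agent.Lib.MP_ae0f86_nt.GC.P.tcop
import Pool.Agent.Lib.MP_ae0f86_nt.GC.P.tiso
import Pool.Agent.Lib.MP_ae0f86_nt.GC.P.ucop
import Pool.Agent.Lib.MP_ae0f86_nt.GC.P.ufull

/-!
# MP_ae0f86_nt : the theorems on generic cycles
-/

open CategoryTheory CategoryTheory.Limits Opposite MonoidalCategory Filter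

universe w v u

namespace Pool.Agent.Lib.MP_ae0f86_nt.GC

noncomputable section

attribute [local instance] CategoryTheory.Abelian.hasFiniteBiproducts

variable {A : Type u} [Category.{v} A] [Abelian A] [MonoidalCategory A] [SymmetricCategory A]

section Fibre

variable {HdR : A ⥤ ModuleCat.{0} QBar} {HB : A ⥤ ModuleCat.{0} ℚ} [FibreFunctor HdR]
  [FibreFunctor HB]

variable (HdR HB) in
theorem g_row : S_row HdR HB := p_row (h1 := a_arel HdR HB)

theorem g_rev (c : Comparison HdR HB) : S_rev c := p_rev c (g_row HdR HB) (a_arel HdR HB)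

theorem g_rk (c : Comparison HdR HB) : S_rk c :=
  p_rk c (g_row HdR HB) (a_arel HdR HB) a_vans p_rank

theorem g_cmp (c : Comparison HdR HB) : S_cmp c :=
  p_cmp c (g_row HdR HB) (g_rev c) (g_rk c) a_fwdim a_fwev (a_fwfin HdR HB)

variable (HdR HB) in
theorem g_sem : S_sem.{w, v, u} HdR HB := p_sem (h1 := p_semi) (h2 := a_arel HdR HB) (h3 := a_fwfin HdR HB)

variable (HdR HB) in
theorem g_gen : S_gen HdR HB :=
  p_gen p_sel (g_row HdR HB) (g_sem HdR HB) (a_arel HdR HB) (a_fwfin HdR HB)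

variable (HB) in
theorem g_pas : S_pas HB := p_pas HB (p_cop HB)

variable (HB) in
theorem g_ucop : S_ucop HB := p_ucop HB (p_cop HB) (g_pas HB)

variable (HB) in
theorem g_tcop : S_tcop HB := p_tcop HB (p_cop HB) (g_pas HB) (p_ext HB) (p_tiso A)

variable [RigidCategory A]

theorem g_nzd (c : Comparison HdR HB) : S_nzd c :=
  p_nzd c (g_row HdR HB) (a_pdec HdR HB) (a_fintype HdR HB) p_nullst d_decdom
    (a_pointbij HdR HB) a_genclosed (a_arel HdR HB)

theorem g_genz (c : Comparison HdR HB) : S_genz c :=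
  p_genz c p_sel (g_row HdR HB) (g_rev c) (g_sem HdR HB) (g_sem HdR HB) (g_nzd c) a_algrel
    (a_arel HdR HB) (a_fwfin HdR HB)

theorem g_fwpow (c : Comparison HdR HB) : S_fwpow c :=
  p_fwpow c (a_fwprod HdR HB) (a_fwfin HdR HB) a_fwdim p_pow (a_arel HdR HB) a_genclosed

theorem g_ufull (c : Comparison HdR HB) : S_ufull c :=
  p_ufull c (g_gen HdR HB) (g_ucop HB) (g_fwpow c) p_mch (p_and HB) a_genclosed

theorem g_gfull (c : Comparison HdR HB) : S_gfull c :=
  p_gfull c (g_genz c) (g_tcop HB) (p_cop HB) (g_fwpow c) (p_and HB) (g_rk c) (g_rev c)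
    (g_cmp c) a_fwdim a_fwev a_genclosed

theorem g_ggrow (c : Comparison HdR HB) : S_ggrow c :=
  p_ggrow c p_ghilb (g_fwpow c) a_fwdim (a_fwfin HdR HB) a_genclosed

variable (HdR HB) in
theorem g_rperm : S_rperm HdR HB :=
  p_rperm (a_trans HdR HB) p_nullst (a_fintype HdR HB) a_genclosed d_decdom

theorem g_rat (c : Comparison HdR HB) : S_rat c :=
  p_rat c (g_rperm HdR HB) (a_pdec HdR HB) (a_dims c) d_comps a_cut d_evcut a_injdim (g_rk c)
    (g_rev c) (g_row HdR HB) (a_fintype HdR HB) a_genclosed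

theorem g_all (c : Comparison HdR HB) : S_all c :=
  p_all c (g_row HdR HB) (g_rev c) (g_rk c) a_fwdim a_fwev (a_arel HdR HB) a_genclosed

variable (HdR HB) in
theorem g_lift : S_lift HdR HB :=
  p_lift (g_row HdR HB) (a_arel HdR HB) a_vans a_genclosed

theorem g_gdim (c : Comparison HdR HB) : S_gdim c := p_gdim c (g_fwpow c) (g_nzd c)

theorem g_gcomp (c : Comparison HdR HB) : S_gcomp c := p_gcomp c (g_fwpow c) (g_nzd c) p_ghilb

/-- Generic cycles are maximal. -/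
theorem gmax [Linear ℚ A] (c : Comparison HdR HB) : S_gmax HB :=
  p_gmax c (g_sem HdR HB) (p_and HB) (g_rk c) (g_cmp c)

/-- There are as many independent integrals over `γ` as expected if and only if they vanish only for
trivial reasons. -/
theorem gtriv (c : Comparison HdR HB) : S_triv c :=
  p_triv c (g_row HdR HB) (g_rev c) (g_rk c) (a_arel HdR HB) a_vans

/-- The law for one maximal cycle on each member of a sequence. -/
theorem glawmax (c : Comparison HdR HB) : S_glawmax c :=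
  p_glawmax c (p_numb p_mch) (p_and HB) (p_cop HB) (g_cmp c) (g_gfull c) (g_ggrow c)
    (g_gdim c) (g_gcomp c) (g_rat c)

/-- The law for one generic cycle on each member of a sequence. -/
theorem glaw (c : Comparison HdR HB) : S_glaw c := p_glaw c (glawmax c) (gmax c)

/-- The density law for single cycles. -/
theorem genericLaw [Linear ℚ A] (c : Comparison HdR HB) (M : A) : GenericLaw c M :=
  p_law c p_numa (p_and HB) (g_cmp c) (g_ufull c) (g_rat c) (g_all c) (gmax c) (gtriv c) M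

/-- Single integrals over one maximal cycle. -/
theorem maximalIntegrals [Linear ℚ A] (c : Comparison HdR HB) (g : TensorGrading HdR)
    (Λ : Lefschetz c g) (w : ℕ) (T : A) (hss : SemisimpleGen T)
    (hT : Nonempty (T ≅ Tᘁ ⊗ tpow Λ.L w)) :
    (∀ W : A, ForGeneric HB W (MaximalCycle HB)) ∧
    (∀ n γ, independent c (tpow T (2 * n)) = expected HB (tpow T (2 * n)) →
      ¬ UnexpectedOver Λ w T n γ) ∧
    (∀ k n γ, k ≤ n → (2 * k + 1) ^ (Module.finrank ℚ (HB.obj T) ^ 2) ≤ 2 ^ ((n - k) / 2) →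
      MaximalCycle HB γ → ¬ UnexpectedOver Λ w T n γ →
        independent c (tpow T k) = expected HB (tpow T k)) ∧
    ∀ γ : ∀ n, BDual HB (tpow T (2 * n)), (∀ n, MaximalCycle HB (γ n)) →
      List.TFAE [
        ∀ n, independent c (tpow T n) = expected HB (tpow T n),
        ∀ n γ', ¬ UnexpectedOver Λ w T n γ',
        ∃ᶠ n in atTop, ¬ UnexpectedOver Λ w T n (γ n)] ∧
      ((∃ᶠ n in atTop, ¬ UnexpectedOver Λ w T n (γ n)) →
        ringKrullDim (PerAlg HB HB (Gen T)) ≤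
          ((Cardinal.toENat (Algebra.trdeg ℚ (IntermediateField.adjoin ℚ (c.Per T))) : ℕ∞) :
            WithBot ℕ∞) + 1) ∧
      (Lin T (𝟙_ A) →
        (PeriodConjecture c T ↔ ∃ᶠ n in atTop, ¬ UnexpectedOver Λ w T n (γ n))) :=
  p_msi c (g_fwpow c) (p_cop HB) p_mch (g_cmp c) (gmax c) g Λ w T hss hT

end Fibre

end

end Pool.Agent.Lib.MP_ae0f86_nt.GC
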