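import Pool.Agent.Lib.MP_ae0f86_nt.G.CubicSeq
import Pool.Agent.Lib.MP_ae0f86_nt.GC.Dim
import Pool.Agent.Lib.MP_ae0f86_nt.GC.Max

/-!
# MP_ae0f86_nt : the law for one generic cycle on each member of a sequence
-/

open CategoryTheory CategoryTheory.Limits Opposite MonoidalCategory Filter

universe w v u

namespace Pool.Agent.Lib.MP_ae0f86_nt.GC

noncomputable section

attribute [local instance] CategoryTheory.Abelian.hasFiniteBiproducts

variable {A : Type u} [Category.{v} A] [Abelian A] [MonoidalCategory A] [SymmetricCategory A]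
  [RigidCategory A] {HdR : A ⥤ ModuleCat.{0} QBar} {HB : A ⥤ ModuleCat.{0} ℚ}
  [FibreFunctor HdR] [FibreFunctor HB]

/-- Isomorphic objects up to an invertible twist have the same numbers. -/
theorem twist_eq [Linear ℚ A] (c : Comparison HdR HB) {W X D D' : A} (hD : D ⊗ D' ≅ 𝟙_ A)
    (hW : W ≅ X ⊗ D) : Nf HB W = Nf HB X ∧ Pf c W = Pf c X := by
  have e : W ≅ X ⊗ tpow D 1 := hW ≪≫ whiskerLeftIso X (λ_ D).symm
  obtain ⟨e1, e2⟩ := g_lin e
  obtain ⟨a1, a2⟩ := a_lineqv c _ _ e1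
  obtain ⟨a3, a4⟩ := a_lineqv c _ _ e2
  obtain ⟨b1, b2⟩ := a_twisteqv c D D' X hD 1
  exact ⟨(le_antisymm a3 a1).trans b1, (le_antisymm a4 a2).trans b2⟩

omit [RigidCategory A] in
theorem finrank_tpow_obj' (HB : A ⥤ ModuleCat.{0} ℚ) [FibreFunctor HB] (T : A) (n : ℕ) :
    Module.finrank ℚ (HB.obj (tpow T n)) = Module.finrank ℚ (HB.obj T) ^ n := by
  have hfin : ∀ X : A, Module.Finite ℚ (HB.obj X) := fun X => FibreFunctor.finite (H := HB) X
  induction n with
  | zero =>
    have e := LinearEquiv.ofBijective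
      (LinearMap.toSpanSingleton ℚ (HB.obj (𝟙_ A)) (FibreFunctor.one (H := HB)))
      (FibreFunctor.one_bij (H := HB))
    rw [pow_zero]
    change Module.finrank ℚ (HB.obj (𝟙_ A)) = 1
    rw [← e.finrank_eq, Module.finrank_self]
  | succ n ih =>
    have e := LinearEquiv.ofBijective _ (FibreFunctor.bij (H := HB) (tpow T n) T)
    have h := e.finrank_eq
    rw [Module.finrank_tensorProduct, ih] at h
    rw [pow_succ, h]
    rfl

omit [RigidCategory A] in
theorem not_zero_of_inv (HB : A ⥤ ModuleCat.{0} ℚ) [FibreFunctor HB] {D D' : A}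
    (hD : D ⊗ D' ≅ 𝟙_ A) : ¬ IsZero D := by
  intro h
  have hfin : Module.Finite ℚ (HB.obj (D ⊗ D')) := FibreFunctor.finite (H := HB) _
  have h0 : ∀ x : HB.obj D, x = 0 := by
    intro x
    have h1 : (HB.map (𝟙 D)).hom x = (HB.map (0 : D ⟶ D)).hom x := by
      rw [(IsZero.iff_id_eq_zero D).1 h]
    rw [HB.map_id, HB.map_zero] at h1
    exact h1
  have h2 : ∀ x : HB.obj (D ⊗ D'), x = 0 := by
    intro x
    obtain ⟨t, rfl⟩ := (FibreFunctor.bij (H := HB) D D').2 x
    induction t using TensorProduct.induction_on with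
    | zero => rw [map_zero]
    | add a b ha hb => rw [map_add, ha, hb, add_zero]
    | tmul a b => rw [TensorProduct.lift.tmul, h0 a, map_zero, LinearMap.zero_apply]
  have h3 : (FibreFunctor.one (H := HB) : HB.obj (𝟙_ A)) = 0 := by
    have h4 := h2 ((HB.map hD.inv).hom (FibreFunctor.one (H := HB)))
    have h5 := congrArg (HB.map hD.hom).hom h4
    rw [map_zero] at h5
    have h6 : (HB.map hD.hom).hom ((HB.map hD.inv).hom (FibreFunctor.one (H := HB))) =
        (HB.map (hD.inv ≫ hD.hom)).hom (FibreFunctor.one (H := HB)) := by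
      rw [HB.map_comp]
      rfl
    rw [← h5, h6, hD.inv_hom_id, HB.map_id]
    rfl
  have h7 := (FibreFunctor.one_bij (H := HB)).1 (a₁ := (0 : ℚ)) (a₂ := 1) (by
    show (0 : ℚ) • (FibreFunctor.one (H := HB) : HB.obj (𝟙_ A)) =
      (1 : ℚ) • (FibreFunctor.one (H := HB) : HB.obj (𝟙_ A))
    rw [h3, smul_zero, smul_zero])
  exact absurd h7 (by norm_num)

theorem p_glawmax (c : Comparison HdR HB) (hnumb : S_numb) (hand : S_and HB) (hcop : S_cop HB)
    (hcmp : S_cmp c) (hgfull : S_gfull c) (hggrow : S_ggrow c) (hgdim : S_gdim c)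
    (hgcomp : S_gcomp c) (hrat : S_rat c) : S_glawmax c := by
  intro _ T W D n hD hW hcof hn γ hmax
  choose D' hD' using hD
  obtain ⟨hPN, hle, -, -, hNb⟩ := hcmp
  set b : ℕ → ℕ := fun k => Module.finrank ℚ (HB.obj (T k)) with hb
  have hb1 : ∀ᶠ k in atTop, 1 ≤ b k := by
    obtain ⟨k0, hk0⟩ := hcof (𝟙_ A)
    filter_upwards [eventually_ge_atTop k0] with k hk
    obtain ⟨R, hR, hl⟩ := hk0 k hk
    have h1 := (a_lineqv c _ _ hl).1
    have h2 := (f_nfpos c (𝟙_ A ⊗ R)).1 (fun h => hR (h.of_iso (λ_ R).symm))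
    have h3 := hNb (T k)
    rcases Nat.eq_zero_or_pos (b k) with h4 | h4
    · exfalso
      have h5 : Module.finrank ℚ (HB.obj (T k)) ^ 2 = 0 := by
        change b k ^ 2 = 0
        rw [h4]
        norm_num
      omega
    · exact h4
  obtain ⟨m, r, hmr, hch, hlim1, hlim2⟩ := hnumb b n hb1 hn
  have hγ : ∀ k, 1 ≤ b k → ∀ m' r' : ℕ, m' + 2 * r' = n k + 1 →
      Nat.multichoose ((b k) ^ 2) m' ≤ Nat.choose r' (r' / 2) →
        Nf HB (tpow (T k) m') ≤ cycleExpected HB (γ k) := by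
    intro k h1 m' r' h3 h4
    have h2 := hgfull (T k) (D k) (W k) (n k + 1) h1
      (not_zero_of_inv HB (hD' k).some) (hcop.1 _ _ (hW k).some.symm)
    obtain ⟨γ0, hγ0⟩ := hand.2.2.2.2.2 _ _ h2
    exact (hγ0 m' r' h3 h4).1.trans (hmax k γ0)
  -- numbers
  set ν : ℕ → ℝ := fun k => (cycleExpected HB (γ k) : ℝ) with hν
  set ρ : ℕ → ℝ := fun k => (cycleIndependent c (γ k) : ℝ) with hρ
  set NN : ℕ → ℕ → ℕ := fun k i => Nf HB (tpow (T k) i) with hNN
  set x : ℕ → ℝ := fun k => (1 + ((b k : ℝ) ^ 2) / ((m k : ℝ) + 1)) ^ (2 * r k) with hx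
  set y : ℕ → ℝ := fun k => 1 + ((b k : ℝ) ^ 2) / ((n k : ℝ) + 1) with hy
  have hx1 : ∀ k, 1 ≤ x k := fun k => one_le_pow₀ (by
    have : (0 : ℝ) ≤ ((b k : ℝ) ^ 2) / ((m k : ℝ) + 1) := by positivity
    linarith)
  have hy1 : ∀ k, 1 ≤ y k := fun k => by
    have : (0 : ℝ) ≤ ((b k : ℝ) ^ 2) / ((n k : ℝ) + 1) := by positivity
    simp only [hy]
    linarith
  have hgr : ∀ k i, (i + 1) * NN k (i + 1) ≤ (i + 1 + (b k) ^ 2) * NN k i := fun k i =>
    hggrow (T k) ((b k) ^ 2) ((hNb (T k)).trans (Nat.le_succ _)) i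
  have hWn : ∀ k, Nf HB (W k) = NN k (n k + 1) ∧ Pf c (W k) = Pf c (tpow (T k) (n k + 1)) :=
    fun k => twist_eq c (hD' k).some (hW k).some
  have hρν : ∀ k, ρ k ≤ ν k := fun k => by
    simp only [hρ, hν]
    exact_mod_cast hPN (W k) (γ k)
  have hρP : ∀ k, ρ k ≤ (Pf c (tpow (T k) (n k + 1)) : ℝ) := fun k => by
    rw [← (hWn k).2]
    simp only [hρ]
    exact_mod_cast (hle (W k) (γ k)).2
  have hρ0 : ∀ k, 0 ≤ ρ k := fun k => by simp only [hρ]; positivity
  -- positivity of the numbers for the tensor powers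
  have hpos : ∀ᶠ k in atTop, ∀ i, 1 ≤ NN k i := by
    filter_upwards [hb1] with k hk i
    refine (f_nfpos c (tpow (T k) i)).1 fun h => ?_
    have hT : Module.finrank ℚ (HB.obj (tpow (T k) i)) = (b k) ^ i := by
      exact finrank_tpow_obj' HB (T k) i
    have h0 : Module.finrank ℚ (HB.obj (tpow (T k) i)) = 0 := by
      have hz : ∀ z : HB.obj (tpow (T k) i), z = 0 := by
        intro z
        have h1 : (HB.map (𝟙 (tpow (T k) i))).hom z =
            (HB.map (0 : tpow (T k) i ⟶ tpow (T k) i)).hom z := by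
          rw [(IsZero.iff_id_eq_zero _).1 h]
        rw [HB.map_id, HB.map_zero] at h1
        exact h1
      have : Subsingleton (HB.obj (tpow (T k) i)) := ⟨fun a b => (hz a).trans (hz b).symm⟩
      exact Module.finrank_zero_of_subsingleton
    rw [h0] at hT
    have : 0 < (b k) ^ i := Nat.pow_pos hk
    omega
  have hNm : ∀ᶠ k in atTop, (NN k (n k + 1) : ℝ) ≤ x k * ν k := by
    filter_upwards [hb1, hch] with k hk1 hk2
    have h1 := hγ k hk1 (m k) (r k) (hmr k) hk2
    have h2 := growth_iter (NN k) ((b k) ^ 2) (hgr k) (m k) (2 * r k)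
    rw [hmr k] at h2
    have h3 : (NN k (m k) : ℝ) ≤ ν k := by
      simp only [hν]
      exact_mod_cast h1
    calc (NN k (n k + 1) : ℝ) ≤ _ := h2
      _ = x k * NN k (m k) := by simp only [hx]; push_cast; ring
      _ ≤ x k * ν k := mul_le_mul_of_nonneg_left h3 (by linarith [hx1 k])
  have hν0 : ∀ᶠ k in atTop, 0 < ν k := by
    filter_upwards [hpos, hNm] with k h1 h2
    have h3 : (1 : ℝ) ≤ NN k (n k + 1) := by exact_mod_cast h1 (n k + 1)
    by_contra h4
    push Not at h4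
    have h5 : x k * ν k ≤ 0 := mul_nonpos_of_nonneg_of_nonpos (by linarith [hx1 k]) h4
    linarith
  have hNn : ∀ k, (NN k (n k + 1) : ℝ) ≤ y k * NN k (n k) := fun k => by
    have h2 := growth_iter (NN k) ((b k) ^ 2) (hgr k) (n k) 1
    rw [pow_one] at h2
    simp only [hy]
    push_cast at h2
    exact h2
  have hbdd : BddBelow (Set.range fun M : A => (1 : ℝ) / ncomp HdR HB M) :=
    ⟨0, by rintro _ ⟨M, rfl⟩; positivity⟩
  have hncpos : ∀ M : A, (0 : ℝ) < ncomp HdR HB M := fun M => by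
    exact_mod_cast (ncomp_pos c M).1
  -- failure of a dimension formula
  have hii : (∃ M : A, ¬ DimFormula c M) → Tendsto (fun k => ρ k / ν k) atTop (nhds 0) := by
    rintro ⟨M, hM⟩
    obtain ⟨U, hU⟩ := hgdim M hM
    obtain ⟨k0, hk0⟩ := hcof U
    have h1 : Tendsto (fun k => (1 - (y k)⁻¹) * x k) atTop (nhds 0) := by
      have h2 := (tendsto_const_nhds (x := (1 : ℝ))).sub (hlim2.inv₀ one_ne_zero)
      have h3 := h2.mul hlim1
      simpa using h3
    refine squeeze_zero' (Eventually.of_forall fun k => div_nonneg (hρ0 k) ((hρ0 k).trans (hρν k)))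
      ?_ h1
    filter_upwards [hNm, hν0, eventually_ge_atTop k0] with k h2 h3 hk
    obtain ⟨R, hR, hl⟩ := hk0 k hk
    have h4 := hU (T k) R hR hl (n k)
    have h4' : (Pf c (tpow (T k) (n k + 1)) : ℝ) + NN k (n k) ≤ NN k (n k + 1) := by
      exact_mod_cast h4
    have hy0 : 0 < y k := by linarith [hy1 k]
    have h5 : (NN k (n k + 1) : ℝ) * (y k)⁻¹ ≤ NN k (n k) := by
      rw [← div_eq_mul_inv, div_le_iff₀ hy0]
      linarith [hNn k]
    have h6 : 0 ≤ 1 - (y k)⁻¹ := by
      have := inv_le_one_of_one_le₀ (hy1 k)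
      linarith
    rw [div_le_iff₀ h3]
    calc ρ k ≤ NN k (n k + 1) - NN k (n k) := by linarith [hρP k]
      _ ≤ (1 - (y k)⁻¹) * NN k (n k + 1) := by linarith
      _ ≤ (1 - (y k)⁻¹) * (x k * ν k) := mul_le_mul_of_nonneg_left h2 h6
      _ = (1 - (y k)⁻¹) * x k * ν k := by ring
  -- upper bound by the number of components
  have hup : ∀ M : A, ∀ᶠ k in atTop, ρ k / ν k ≤ y k * x k / ncomp HdR HB M := by
    intro M
    obtain ⟨U, hU⟩ := hgcomp M
    obtain ⟨k0, hk0⟩ := hcof U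
    filter_upwards [hNm, hν0, eventually_ge_atTop k0] with k h2 h3 hk
    obtain ⟨R, hR, hl⟩ := hk0 k hk
    obtain ⟨E, hE1, hE2, hE3⟩ := hU (T k) R hR hl
    have h4 := growth_iter E ((b k) ^ 2)
      (fun i => hE3 ((b k) ^ 2) ((hNb (T k)).trans (Nat.le_succ _)) i) (n k) 1
    rw [pow_one] at h4
    have h4' : (E (n k + 1) : ℝ) ≤ y k * E (n k) := by
      simp only [hy]
      push_cast at h4
      exact h4
    have h5 : (ncomp HdR HB M : ℝ) * E (n k) ≤ NN k (n k + 1) := by exact_mod_cast hE2 (n k)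
    have h6 : (Pf c (tpow (T k) (n k + 1)) : ℝ) ≤ E (n k + 1) := by exact_mod_cast hE1 (n k + 1)
    rw [div_le_div_iff₀ h3 (hncpos M)]
    have hy0 : 0 ≤ y k := by linarith [hy1 k]
    calc ρ k * ncomp HdR HB M ≤ (y k * E (n k)) * ncomp HdR HB M :=
          mul_le_mul_of_nonneg_right ((hρP k).trans (h6.trans h4')) (hncpos M).le
      _ = y k * (ncomp HdR HB M * E (n k)) := by ring
      _ ≤ y k * (x k * ν k) := mul_le_mul_of_nonneg_left (h5.trans h2) hy0
      _ = y k * x k * ν k := by ring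
  have hlow : (∀ M : A, DimFormula c M) → ∀ k, ν k ≤ ncomp HdR HB (W k) * ρ k := by
    intro hall k
    have h1 := hrat (W k) (hall (W k)) (W k) Gen.base (γ k)
    simp only [hν, hρ]
    exact_mod_cast h1
  have hi : (∀ M : A, DimFormula c M) → Tendsto (fun k => ρ k / ν k) atTop
      (nhds (⨅ M : A, (1 : ℝ) / ncomp HdR HB M)) := by
    intro hall
    rw [tendsto_order]
    constructor
    · intro a ha
      filter_upwards [hν0] with k hk
      refine ha.trans_le ((ciInf_le hbdd (W k)).trans ?_)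
      rw [div_le_div_iff₀ (hncpos _) hk, one_mul]
      have := hlow hall k
      linarith
    · intro a ha
      have : Nonempty A := ⟨𝟙_ A⟩
      obtain ⟨M, hM⟩ := exists_lt_of_ciInf_lt ha
      have h1 : Tendsto (fun k => y k * x k / (ncomp HdR HB M : ℝ)) atTop
          (nhds (1 * 1 / (ncomp HdR HB M : ℝ))) := (hlim2.mul hlim1).div_const _
      rw [one_mul] at h1
      filter_upwards [hup M, h1.eventually (gt_mem_nhds hM)] with k h2 h3
      exact h2.trans_lt h3
  have key : ∀ δ : ℝ, 0 < δ → (∃ᶠ k in atTop, δ * ν k ≤ ρ k) →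
      ∀ M : A, DimFormula c M ∧ δ * (ncomp HdR HB M : ℝ) ≤ 1 := by
    intro δ hδ hf
    have hf' : ∃ᶠ k in atTop, δ ≤ ρ k / ν k := by
      refine (hf.and_eventually hν0).mono fun k hk => ?_
      rw [le_div_iff₀ hk.2]
      exact hk.1
    have hall : ∀ M : A, DimFormula c M := by
      by_contra hnot
      push Not at hnot
      have h1 := (hii hnot).eventually (gt_mem_nhds hδ)
      obtain ⟨k, hk1, hk2⟩ := (hf'.and_eventually h1).exists
      linarith
    refine fun M => ⟨hall M, ?_⟩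
    have h1 := hi hall
    have h2 : δ ≤ ⨅ M : A, (1 : ℝ) / ncomp HdR HB M := by
      by_contra hlt
      push Not at hlt
      obtain ⟨k, hk1, hk2⟩ := (hf'.and_eventually (h1.eventually (gt_mem_nhds hlt))).exists
      linarith
    have h3 := h2.trans (ciInf_le hbdd M)
    rwa [le_div_iff₀ (hncpos M)] at h3
  have hall2 : ∀ δ : ℝ, 0 < δ → (∀ M : A, DimFormula c M ∧ δ * (ncomp HdR HB M : ℝ) ≤ 1) →
      ∀ (W' : A) (γ' : BDual HB W'), δ * (cycleExpected HB γ' : ℝ) ≤ cycleIndependent c γ' := by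
    intro δ hδ h W' γ'
    obtain ⟨h1, h2⟩ := h W'
    have h3 : (cycleExpected HB γ' : ℝ) ≤ ncomp HdR HB W' * cycleIndependent c γ' := by
      exact_mod_cast hrat W' h1 W' Gen.base γ'
    have h4 : (0 : ℝ) ≤ cycleIndependent c γ' := by positivity
    calc δ * (cycleExpected HB γ' : ℝ) ≤ δ * (ncomp HdR HB W' * cycleIndependent c γ') :=
          mul_le_mul_of_nonneg_left h3 hδ.le
      _ = (δ * ncomp HdR HB W') * cycleIndependent c γ' := by ring
      _ ≤ 1 * cycleIndependent c γ' := mul_le_mul_of_nonneg_right h2 h4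
      _ = cycleIndependent c γ' := one_mul _
  refine ⟨hi, hii, fun δ hδ => ?_, ?_⟩
  · tfae_have 1 → 2 := hall2 δ hδ
    tfae_have 2 → 3 := fun h => Frequently.of_forall fun k => h (W k) (γ k)
    tfae_have 3 → 1 := key δ hδ
    tfae_finish
  · have hq : ∀ M : A, PeriodConjecture c M ↔ ncomp HdR HB M = 1 ∧ DimFormula c M := by
      intro M
      rw [PeriodConjecture, (ncomp_pos c M).2]
    tfae_have 1 → 2 := by
      intro hall k
      obtain ⟨h1, h2⟩ := (hq (W k)).1 (hall (W k))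
      have h3 := hrat (W k) h2 (W k) Gen.base (γ k)
      rw [h1, one_mul] at h3
      exact le_antisymm (hPN (W k) (γ k)) h3
    tfae_have 2 → 3 := by
      intro hall
      refine ⟨1, by norm_num, Frequently.of_forall fun k => ?_⟩
      rw [hall k, one_mul]
    tfae_have 3 → 1 := by
      rintro ⟨δ, hδ, hf⟩ M
      obtain ⟨h1, h2⟩ := key δ (by linarith) hf M
      rw [hq]
      refine ⟨?_, h1⟩
      have h4 := (ncomp_pos c M).1
      by_contra hne
      have h5 : (2 : ℝ) ≤ ncomp HdR HB M := by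
        have : 2 ≤ ncomp HdR HB M := by omega
        exact_mod_cast this
      nlinarith
    tfae_finish

theorem p_glaw (c : Comparison HdR HB) (h : S_glawmax c) (hmax : [Linear ℚ A] → S_gmax HB) :
    S_glaw c := by
  intro _ T W D n hD hW hcof hn
  exact ⟨fun k => MaximalCycle HB, fun k => hmax (W k), fun γ hγ => h T W D n hD hW hcof hn γ hγ⟩

end

end Pool.Agent.Lib.MP_ae0f86_nt.GC
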