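import Pool.Agent.Lib.MP_ae0f86_nt.GC.Stm

/-!
# MP_ae0f86_nt : the integrals over one cycle vanish for trivial reasons
-/

open CategoryTheory CategoryTheory.Limits Opposite MonoidalCategory Filter

universe w v u

namespace Pool.Agent.Lib.MP_ae0f86_nt.GC

noncomputable section

attribute [local instance] CategoryTheory.Abelian.hasFiniteBiproducts

variable {A : Type u} [Category.{v} A] [Abelian A] [MonoidalCategory A] [SymmetricCategory A]
  {HdR : A ⥤ ModuleCat.{0} QBar} {HB : A ⥤ ModuleCat.{0} ℚ} [FibreFunctor HdR]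
  [FibreFunctor HB]

/-- There are as many linearly independent integrals over `γ` as expected if and only if the
integrals over `γ` vanish only for a trivial reason. -/
def S_triv (c : Comparison HdR HB) : Prop := [Linear ℚ A] → ∀ (W : A) (γ : BDual HB W),
  cycleIndependent c γ = cycleExpected HB γ ↔
    ∀ ω : HdR.obj W, c.val ω γ = 0 → Trivially HdR HB ω γ

private theorem triv_asym (c : Comparison HdR HB) (S : A → Prop) {N : A} (hN : S N)
    (ω : HdR.obj N) (σ : Module.Dual ℚ (HB.obj N)) :
    c.evAlg S (asym HdR HB hN ω σ) = c.val ω σ :=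
  MvPolynomial.aeval_X (R := QBar) (fun s : Symb HdR HB S => c.per s.N s.ω s.σ) ⟨N, hN, ω, σ⟩

theorem p_triv (c : Comparison HdR HB) (hrow : S_row HdR HB) (hrev : S_rev c) (hrk : S_rk c)
    (harel : S_arel HdR HB) (hvans : S_vans (A := A)) : S_triv c := by
  intro _ W γ
  have hT : TClosed (fun _ : A => True) := by
    refine { sub := ?_, quot := ?_, sum := ?_, ne := ⟨W, trivial⟩, unit := trivial,
             tensor := ?_ } <;> intros <;> trivial
  have hfin : Module.Finite QBar (row HdR HB (S := fun _ : A => True) (W := W) trivial γ) :=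
    hrow.2.2.2.1 _ γ
  rw [hrk hT (W := W) trivial γ, hrev.2.2 (S := fun _ : A => True) (W := W) trivial γ]
  set F := row HdR HB (S := fun _ : A => True) (W := W) trivial γ with hF
  set f := (c.evAlg (fun _ : A => True)).toLinearMap.domRestrict F with hf
  have h1 : LinearMap.range f = F.map (c.evAlg (fun _ : A => True)).toLinearMap :=
    LinearMap.range_domRestrict _ _
  have h2 := f.finrank_range_add_finrank_ker
  rw [h1] at h2
  have h3 : Module.finrank QBar ↥(F.map (c.evAlg (fun _ : A => True)).toLinearMap) =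
      Module.finrank QBar F ↔ LinearMap.ker f = ⊥ := by
    rw [← Submodule.finrank_eq_zero (R := QBar)]
    omega
  rw [h3]
  constructor
  · intro hk ω hω
    have h4 : (⟨asym HdR HB (S := fun _ : A => True) (N := W) trivial ω γ,
        (hrow.2.1 _ γ _).2 ⟨ω, rfl⟩⟩ : F) ∈ LinearMap.ker f := by
      rw [LinearMap.mem_ker]
      exact (triv_asym c _ _ ω γ).trans hω
    rw [hk, Submodule.mem_bot] at h4
    exact hvans HdR HB (fun _ : A => True) hT (N := W) trivial ω γ (congrArg Subtype.val h4)
  · intro h
    rw [eq_bot_iff]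
    rintro ⟨x, hx⟩ hx0
    obtain ⟨ω, rfl⟩ := (hrow.2.1 _ γ x).1 hx
    have h5 : c.val ω γ = 0 := (triv_asym c (fun _ : A => True) (N := W) trivial ω γ).symm.trans hx0
    obtain ⟨N', i, -, ⟨ω', rfl⟩, h6⟩ := h ω h5
    rw [Submodule.mem_bot, Subtype.ext_iff]
    obtain ⟨-, -, -, -, hnat, -, hz⟩ := harel (fun _ : A => True)
    have h7 := hnat (N := N') (N' := W) trivial trivial i ω' γ
    exact h7.symm.trans ((congrArg _ h6).trans (hz _ _))

end

end Pool.Agent.Lib.MP_ae0f86_nt.GC
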