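import Pool.Agent.Lib.MP_ae0f86_nt.D.Final
import Pool.Agent.Lib.MP_ae0f86_nt.GC.Seq
import Pool.Agent.Lib.MP_ae0f86_nt.GC.Triv

/-!
# MP_ae0f86_nt : the density law for single generic cycles
-/

open CategoryTheory CategoryTheory.Limits Opposite MonoidalCategory Filter

open scoped ZeroObject

universe w v u

namespace Pool.Agent.Lib.MP_ae0f86_nt.GC

noncomputable section

attribute [local instance] CategoryTheory.Abelian.hasFiniteBiproducts

variable {A : Type u} [Category.{v} A] [Abelian A] [MonoidalCategory A] [SymmetricCategory A]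
  [RigidCategory A] {HdR : A ⥤ ModuleCat.{0} QBar} {HB : A ⥤ ModuleCat.{0} ℚ}
  [FibreFunctor HdR] [FibreFunctor HB]

omit [MonoidalCategory A] [SymmetricCategory A] [RigidCategory A] [FibreFunctor HB] in
theorem obj_zero (HB : A ⥤ ModuleCat.{0} ℚ) [HB.Additive] {X : A} (h : IsZero X)
    (z : HB.obj X) : z = 0 := by
  have h1 : (HB.map (𝟙 X)).hom z = (HB.map (0 : X ⟶ X)).hom z := by
    rw [(IsZero.iff_id_eq_zero _).1 h]
  rw [HB.map_id, HB.map_zero] at h1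
  exact h1

omit [RigidCategory A] in
theorem cycleExpected_zero (HB : A ⥤ ModuleCat.{0} ℚ) [FibreFunctor HB] (W : A) :
    cycleExpected HB (0 : BDual HB W) = 0 := by
  refine Nat.le_zero.1 (Nat.sInf_le ⟨0, 0, 0, ?_, ?_⟩)
  · exact LinearMap.zero_comp _
  · have : Subsingleton (HB.obj (0 : A)) :=
      ⟨fun a b => (obj_zero HB (isZero_zero A) a).trans (obj_zero HB (isZero_zero A) b).symm⟩
    exact Module.finrank_zero_of_subsingleton

/-- The statement of the density law for single cycles. -/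
def GenericLaw (c : Comparison HdR HB) (M : A) : Prop :=
    (∀ (W : A) (γ : BDual HB W), cycleIndependent c γ ≤ cycleExpected HB γ ∧
      (cycleIndependent c γ = cycleExpected HB γ ↔
        ∀ ω : HdR.obj W, c.val ω γ = 0 → Trivially HdR HB ω γ)) ∧
    ∃ r g t : ℕ, 1 ≤ r ∧ t ≤ g ∧
      Finite (_root_.ConnectedComponents (PrimeSpectrum (PerAlg HdR HB (Gen M)))) ∧
      components HdR HB M = r ∧
      ringKrullDim (PerAlg HB HB (Gen M)) = g ∧
      Algebra.trdeg ℚ (IntermediateField.adjoin ℚ (c.Per M)) = (t : Cardinal) ∧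
      (t = g → ∀ W : A, Gen M W → ∀ γ : BDual HB W,
        cycleExpected HB γ ≤ r * cycleIndependent c γ) ∧
      (∃ (W : A) (γ : BDual HB W), Gen M W ∧ cycleExpected HB γ = r ∧
        cycleIndependent c γ = 1) ∧
      (∀ W : A, ForGeneric HB W (MaximalCycle HB)) ∧
      (∀ n : ℕ, ForGeneric HB (tpow (𝟙_ A ⊞ M) n) fun γ => ∀ m : ℕ,
        m + Module.finrank ℚ (HB.obj M) ^ 2 ≤ n + 1 →
          independent c (tpow (𝟙_ A ⊞ M) m) ≤ cycleIndependent c γ ∧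
          ∀ z ∈ c.Per (tpow (𝟙_ A ⊞ M) m),
            ∃ ω : HdR.obj (tpow (𝟙_ A ⊞ M) n), c.val ω γ = z) ∧
      (∀ (n : ℕ) (γ : BDual HB (tpow (𝟙_ A ⊞ M) n)), MaximalCycle HB γ →
        cycleExpected HB γ ≤ expected HB (tpow (𝟙_ A ⊞ M) n) ∧
        ∀ m : ℕ, m + Module.finrank ℚ (HB.obj M) ^ 2 ≤ n + 1 →
          expected HB (tpow (𝟙_ A ⊞ M) m) ≤ cycleExpected HB γ) ∧
      (∃ a b : ℝ, 0 < a ∧
        (∀ (n : ℕ) (γ : BDual HB (tpow (𝟙_ A ⊞ M) n)), MaximalCycle HB γ →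
          a * ((n : ℝ) + 1) ^ g ≤ cycleExpected HB γ ∧
          (cycleExpected HB γ : ℝ) ≤ b * ((n : ℝ) + 1) ^ g ∧
          (cycleIndependent c γ : ℝ) ≤ b * ((n : ℝ) + 1) ^ t) ∧
        ∀ n : ℕ, ForGeneric HB (tpow (𝟙_ A ⊞ M) n) fun γ =>
          a * ((n : ℝ) + 1) ^ t ≤ cycleIndependent c γ) ∧
      (t = g → ∃ C : ℝ, ∀ (n : ℕ) (γ : BDual HB (tpow (𝟙_ A ⊞ M) n)), MaximalCycle HB γ →
        (1 : ℝ) / r ≤ (cycleIndependent c γ : ℝ) / cycleExpected HB γ ∧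
        (cycleIndependent c γ : ℝ) / cycleExpected HB γ ≤ 1 / r + C / ((n : ℝ) + 1)) ∧
      ∀ γ : ∀ n : ℕ, BDual HB (tpow (𝟙_ A ⊞ M) n), (∀ n, MaximalCycle HB (γ n)) →
        Tendsto (fun n => (cycleIndependent c (γ n) : ℝ) / cycleExpected HB (γ n))
          atTop (nhds (if t = g then (1 : ℝ) / r else 0)) ∧
        (DimensionFormula c M ↔ ∃ δ : ℝ, 0 < δ ∧
          ∃ᶠ n in atTop, δ * (cycleExpected HB (γ n) : ℝ) ≤ cycleIndependent c (γ n)) ∧
        List.TFAE [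
          PeriodConjecture c M,
          ∃ δ : ℝ, 1 / 2 < δ ∧
            ∃ᶠ n in atTop, δ * (cycleExpected HB (γ n) : ℝ) ≤ cycleIndependent c (γ n),
          ∃ᶠ n in atTop, ∀ ω : HdR.obj (tpow (𝟙_ A ⊞ M) n), c.val ω (γ n) = 0 →
            Trivially HdR HB ω (γ n),
          ∀ W : A, Gen M W → ∀ γ' : BDual HB W, γ' ≠ 0 →
            cycleExpected HB γ' < 2 * cycleIndependent c γ']

omit [SymmetricCategory A] in
theorem gen_uT (M : A) : Gen (𝟙_ A ⊞ M) M :=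
  Gen.sub (biprod.inr : M ⟶ 𝟙_ A ⊞ M) Gen.base

omit [RigidCategory A] [SymmetricCategory A] in
theorem lin_uT (M : A) : Lin (𝟙_ A ⊞ M) (𝟙_ A) := by
  have h4 : S_lincl A := a_lincl
  exact (h4.1 _).quot (biprod.fst : 𝟙_ A ⊞ M ⟶ 𝟙_ A) (h4.2.1 _)

theorem p_law [Linear ℚ A] (c : Comparison HdR HB) (hnuma : S_numa) (hand : S_and HB)
    (hcmp : S_cmp c) (hufull : S_ufull c) (hrat : S_rat c) (hall : S_all c)
    (hmaxc : S_gmax HB) (htriv : S_triv c) (M : A) : GenericLaw c M := by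
  have hgc : S_genclosed (A := A) := a_genclosed
  obtain ⟨r, g, t, hr, htg, hfin, hnc, hg, ht, ⟨a, b, ha, hab⟩, heq, hlim, ⟨U, hU, hU1, hU2⟩,
    -, -⟩ := densityLaw c M (𝟙_ A ⊞ M) (uT_mem M) (gen_uT M) (lin_uT M)
  obtain ⟨hPN, hle, hge1, hcont, -⟩ := hcmp
  have hdf : DimFormula c M ↔ t = g := by
    rw [DimFormula, hg, ht]
    simp only [Cardinal.toENat_nat]
    constructor
    · intro h2
      exact_mod_cast h2.symm
    · intro h2
      rw [h2]; rfl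
  have hpc : PeriodConjecture c M ↔ r = 1 ∧ t = g := by
    have h1 : PeriodConjecture c M ↔ ncomp HdR HB M = 1 ∧ DimFormula c M := by
      rw [PeriodConjecture, (ncomp_pos c M).2]
    rw [h1, hdf]
    have h2 : ncomp HdR HB M = r := hnc
    rw [h2]
  have hratr : t = g → ∀ W : A, Gen M W → ∀ γ : BDual HB W,
      cycleExpected HB γ ≤ r * cycleIndependent c γ := by
    intro h W hW γ
    have h1 := hrat M (hdf.2 h) W hW γ
    have h2 : ncomp HdR HB M = r := hnc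
    rwa [h2] at h1
  set B : ℕ := Module.finrank ℚ (HB.obj M) ^ 2 with hB
  set NN : ℕ → ℕ := fun n => Nf HB (tpow (𝟙_ A ⊞ M) n) with hNN
  set PP : ℕ → ℕ := fun n => Pf c (tpow (𝟙_ A ⊞ M) n) with hPP
  have hgrow : ∀ n, (n + 1) * NN (n + 1) ≤ (n + 1 + NN 1) * NN n := by
    intro n
    have h1 : Nf HB (𝟙_ A ⊞ M) ≤ NN 1 + 1 := by
      have e : 𝟙_ A ⊞ M ≅ tpow (𝟙_ A ⊞ M) 1 := (λ_ _).symm
      exact ((a_lineqv c _ _ (g_lin e).2).1).trans (Nat.le_succ _)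
    exact Nf_growth c (𝟙_ A ⊞ M) (lin_uT M) (NN 1) h1 n
  obtain ⟨⟨a', b', ha', hab'⟩, hC⟩ := hnuma NN PP r g t B (NN 1) hr htg
    ⟨a, b, ha, hab⟩ (fun n => Pf_le_Nf c _) hgrow
  -- the generic sets
  have hgen : ∀ n, ForGeneric HB (tpow (𝟙_ A ⊞ M) n) (fun γ => γ ≠ 0 ∧ ∀ m : ℕ,
      m + B ≤ n + 1 → fw HdR HB (uTpow_mem M m) ≤ row HdR HB (uTpow_mem M n) γ) := by
    intro n
    refine hand.2.2.1 _ _ _ (hand.2.2.2.2.1 _ ?_) (hufull M n)
    have h0 : NN n ≠ 0 := by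
      intro h
      have h1 := (hab n).1
      have h2 : (NN n : ℝ) = 0 := by rw [h]; norm_num
      have h3 : 0 < a * ((n : ℝ) + 1) ^ g := by positivity
      have h4 : a * ((n : ℝ) + 1) ^ g ≤ (NN n : ℝ) := h1
      linarith
    by_contra hz
    push Not at hz
    have h1 : Module.finrank ℚ (HB.obj (tpow (𝟙_ A ⊞ M) n)) = 0 := Nat.le_zero.1 hz
    have h2 : Module.finrank ℚ (Module.End ℚ (HB.obj (tpow (𝟙_ A ⊞ M) n))) = 0 := by
      have : Module.Finite ℚ (HB.obj (tpow (𝟙_ A ⊞ M) n)) := FibreFunctor.finite (H := HB) _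
      rw [Module.finrank_linearMap, h1, zero_mul]
    have : Module.Finite ℚ (HB.obj (tpow (𝟙_ A ⊞ M) n)) := FibreFunctor.finite (H := HB) _
    exact h0 (Nat.le_zero.1 ((Submodule.finrank_le (EndBetti HB (tpow (𝟙_ A ⊞ M) n))).trans
      h2.le))
  have hprop : ∀ n (γ : BDual HB (tpow (𝟙_ A ⊞ M) n)), (γ ≠ 0 ∧ ∀ m : ℕ,
      m + B ≤ n + 1 → fw HdR HB (uTpow_mem M m) ≤ row HdR HB (uTpow_mem M n) γ) →
      1 ≤ cycleIndependent c γ ∧ cycleIndependent c γ ≤ cycleExpected HB γ ∧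
      cycleExpected HB γ ≤ NN n ∧ cycleIndependent c γ ≤ PP n ∧
      ∀ m, m + B ≤ n + 1 → NN m ≤ cycleExpected HB γ ∧ PP m ≤ cycleIndependent c γ ∧
        ∀ z ∈ c.Per (tpow (𝟙_ A ⊞ M) m),
          ∃ ω : HdR.obj (tpow (𝟙_ A ⊞ M) n), c.val ω γ = z := by
    rintro n γ ⟨h0, h1⟩
    exact ⟨hge1 _ γ h0, hPN _ γ, (hle _ γ).1, (hle _ γ).2, fun m hm =>
      hcont (hgc.1 M) (uTpow_mem M m) (uTpow_mem M n) γ (h1 m hm)⟩
  -- a maximal cycle compared with a generic maximal cycle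
  have hmax : ∀ n (γ : BDual HB (tpow (𝟙_ A ⊞ M) n)), MaximalCycle HB γ →
      ∃ ρ : ℕ, 1 ≤ ρ ∧ ρ ≤ cycleExpected HB γ ∧ cycleIndependent c γ ≤ ρ ∧ ρ ≤ PP n ∧
        cycleExpected HB γ ≤ NN n ∧
        ∀ m, m + B ≤ n + 1 → NN m ≤ cycleExpected HB γ ∧ PP m ≤ ρ := by
    intro n γ hγ
    obtain ⟨γ0, h0⟩ := hand.2.2.2.2.2 _ _ (hgen n)
    obtain ⟨h1, h2, h3, h4, h5⟩ := hprop n γ0 h0
    have h6 := hγ γ0
    refine ⟨max (cycleIndependent c γ0) (cycleIndependent c γ), le_max_of_le_left h1,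
      max_le (h2.trans h6) (hPN _ γ), le_max_right _ _, max_le h4 (hle _ γ).2, (hle _ γ).1,
      fun m hm => ⟨(h5 m hm).1.trans h6, le_max_of_le_left (h5 m hm).2.1⟩⟩
  have hne0 : ∀ n (γ : BDual HB (tpow (𝟙_ A ⊞ M) n)), MaximalCycle HB γ →
      1 ≤ cycleExpected HB γ := by
    intro n γ hγ
    obtain ⟨ρ, h1, h2, -⟩ := hmax n γ hγ
    exact h1.trans h2
  have hbd : ∀ (n : ℕ) (γ : BDual HB (tpow (𝟙_ A ⊞ M) n)), MaximalCycle HB γ →
      a' * ((n : ℝ) + 1) ^ g ≤ cycleExpected HB γ ∧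
      (cycleExpected HB γ : ℝ) ≤ b' * ((n : ℝ) + 1) ^ g ∧
      (cycleIndependent c γ : ℝ) ≤ b' * ((n : ℝ) + 1) ^ t := by
    intro n γ hγ
    obtain ⟨ρ, h1, h2, h3, h4, h5, h6⟩ := hmax n γ hγ
    obtain ⟨k1, k2, -, k4⟩ := hab' n _ ρ h1 h2 h5 h4 h6
    exact ⟨k1, k2, le_trans (by exact_mod_cast h3) k4⟩
  have hCr : t = g → ∃ C : ℝ, ∀ (n : ℕ) (γ : BDual HB (tpow (𝟙_ A ⊞ M) n)),
      MaximalCycle HB γ →
        (1 : ℝ) / r ≤ (cycleIndependent c γ : ℝ) / cycleExpected HB γ ∧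
        (cycleIndependent c γ : ℝ) / cycleExpected HB γ ≤ 1 / r + C / ((n : ℝ) + 1) := by
    intro htg'
    obtain ⟨⟨C, hC1⟩, -⟩ := heq htg'
    obtain ⟨C', hC'⟩ := hC ⟨C, fun n => (hC1 n).2⟩
    refine ⟨C', fun n γ hγ => ?_⟩
    obtain ⟨ρ, h1, h2, h3, h4, h5, h6⟩ := hmax n γ hγ
    have h8 : (0 : ℝ) < cycleExpected HB γ := by exact_mod_cast (lt_of_lt_of_le h1 h2)
    refine ⟨?_, le_trans ?_ (hC' n _ ρ h1 h2 h5 h4 h6)⟩
    · have h7 : (cycleExpected HB γ : ℝ) ≤ r * cycleIndependent c γ := by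
        exact_mod_cast hratr htg' _ (uTpow_mem M n) γ
      have h9 : (0 : ℝ) < r := by exact_mod_cast hr
      rw [div_le_div_iff₀ h9 h8]
      linarith
    · have h7 : (cycleIndependent c γ : ℝ) ≤ ρ := by exact_mod_cast h3
      exact div_le_div_of_nonneg_right h7 h8.le
  refine ⟨fun W γ => ⟨hPN W γ, htriv W γ⟩,
    r, g, t, hr, htg, hfin, hnc, hg, ht, hratr, ?_, hmaxc, fun n => ?_, fun n γ hγ => ?_,
    ⟨a', b', ha', hbd, fun n => ?_⟩, hCr, fun γ hγ => ?_⟩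
  · obtain ⟨W, γ, hW, h1, h2⟩ := hall M U hU
    exact ⟨W, γ, hW, h1.trans hU1, h2.trans hU2⟩
  · refine hand.2.1 _ _ _ (hgen n) fun γ hγ m hm => ?_
    obtain ⟨-, -, -, -, h5⟩ := hprop n γ hγ
    exact (h5 m hm).2
  · obtain ⟨ρ, h1, h2, h3, h4, h5, h6⟩ := hmax n γ hγ
    exact ⟨h5, fun m hm => (h6 m hm).1⟩
  · refine hand.2.1 _ _ _ (hgen n) fun γ hγ => ?_
    obtain ⟨h1, h2, h3, h4, h5⟩ := hprop n γ hγ
    exact (hab' n _ _ h1 h2 h3 h4 fun m hm => ⟨(h5 m hm).1, (h5 m hm).2.1⟩).2.2.1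
  · have hC2 : t = g → ∃ C : ℝ, ∀ n : ℕ,
        (1 : ℝ) / r ≤ (cycleIndependent c (γ n) : ℝ) / cycleExpected HB (γ n) ∧
        (cycleIndependent c (γ n) : ℝ) / cycleExpected HB (γ n) ≤ 1 / r + C / ((n : ℝ) + 1) := by
      intro htg'
      obtain ⟨C, hC⟩ := hCr htg'
      exact ⟨C, fun n => hC n (γ n) (hγ n)⟩
    obtain ⟨hf1, hf2, hf3⟩ := d_freq (fun n => (cycleExpected HB (γ n) : ℝ))
      (fun n => (cycleIndependent c (γ n) : ℝ)) r g t hr htg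
      (fun n => by exact_mod_cast hne0 n (γ n) (hγ n))
      (fun n => by positivity)
      ⟨a', b', ha', fun n => ⟨(hbd n (γ n) (hγ n)).1, (hbd n (γ n) (hγ n)).2.2⟩⟩ hC2
    refine ⟨hf1, hdf.trans hf2, ?_⟩
    tfae_have 1 ↔ 2 := hpc.trans hf3
    tfae_have 1 → 3 := by
      intro h
      obtain ⟨h1, h2⟩ := hpc.1 h
      refine Frequently.of_forall fun n => (htriv _ (γ n)).1 (le_antisymm (hPN _ (γ n)) ?_)
      have h3 := hratr h2 _ (uTpow_mem M n) (γ n)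
      rwa [h1, one_mul] at h3
    tfae_have 3 → 2 := by
      intro h
      refine ⟨1, by norm_num, h.mono fun n hn => ?_⟩
      rw [(htriv _ (γ n)).2 hn, one_mul]
    tfae_have 1 → 4 := by
      intro h W hW γ' hγ'
      obtain ⟨h1, h2⟩ := hpc.1 h
      have h3 := hratr h2 W hW γ'
      have h4 := hge1 W γ' hγ'
      rw [h1, one_mul] at h3
      omega
    tfae_have 4 → 1 := by
      intro h
      rw [hpc]
      have hne : ∀ (W : A) (γ' : BDual HB W), 1 ≤ cycleExpected HB γ' → γ' ≠ 0 := by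
        rintro W γ' h1 rfl
        rw [cycleExpected_zero] at h1
        omega
      have h2 : t = g := by
        by_contra hne'
        rw [if_neg hne'] at hlim
        have h3 := hlim.eventually (gt_mem_nhds (show (0 : ℝ) < 1 / 2 by norm_num))
        obtain ⟨n, hn⟩ := h3.exists
        have h4 : (0 : ℝ) < NN n := by
          have h5 : 0 < a * ((n : ℝ) + 1) ^ g := by positivity
          exact h5.trans_le (hab n).1
        have h5 : (PP n : ℝ) / NN n < 1 / 2 := hn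
        rw [div_lt_iff₀ h4] at h5
        obtain ⟨W, γ', hW, h6, h7⟩ := hall M _ (uTpow_mem M n)
        have h8 := h W hW γ' (hne W γ' (by
          rw [h6]
          exact_mod_cast h4))
        rw [h6, h7] at h8
        have h9 : (NN n : ℝ) < 2 * PP n := by exact_mod_cast h8
        linarith
      refine ⟨?_, h2⟩
      obtain ⟨W, γ', hW, h6, h7⟩ := hall M U hU
      have h8 := h W hW γ' (hne W γ' (by
        rw [h6]
        exact hr.trans hU1.ge))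
      rw [h6, h7] at h8
      have h9 : Nf HB U = r := hU1
      have h10 : Pf c U = 1 := hU2
      omega
    tfae_finish

end

end Pool.Agent.Lib.MP_ae0f86_nt.GC
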