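import Pool.Agent.Lib.MP_ae0f86_nt.GC.Max

/-!
# MP_ae0f86_nt : maximal cycles in the semisimple case

If `⟨T⟩` is semisimple, `B` and `W` are in `⟨T⟩` and `W` contains sufficiently many copies of `B`,
then every cycle for `B` is the inverse image of every maximal cycle for `W` under a morphism.
-/

set_option linter.unusedSectionVars false

open CategoryTheory CategoryTheory.Limits Opposite MonoidalCategory Filter

open scoped ZeroObject

universe w v u

namespace Pool.Agent.Lib.MP_ae0f86_nt.GC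

noncomputable section

attribute [local instance] CategoryTheory.Abelian.hasFiniteBiproducts

variable {A : Type u} [Category.{v} A] [Abelian A] [MonoidalCategory A] [SymmetricCategory A]
  {HB : A ⥤ ModuleCat.{0} ℚ} [FibreFunctor HB]

/-! ### calculus of inverse images -/

theorem ml_pull_comp {X Y Z : A} (f : X ⟶ Y) (g : Y ⟶ Z) (σ : BDual HB Z) :
    (σ.pull g).pull f = σ.pull (f ≫ g) := by
  apply LinearMap.ext
  intro x
  simp [HB.map_comp]

theorem ml_pull_id {X : A} (σ : BDual HB X) : σ.pull (𝟙 X) = σ := by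
  apply LinearMap.ext
  intro x
  simp

theorem ml_pull_zero {X Y : A} (σ : BDual HB Y) : σ.pull (0 : X ⟶ Y) = 0 := by
  apply LinearMap.ext
  intro x
  simp

theorem ml_pull_add {X Y : A} (f g : X ⟶ Y) (σ : BDual HB Y) :
    σ.pull (f + g) = σ.pull f + σ.pull g := by
  apply LinearMap.ext
  intro x
  simp [HB.map_add]

theorem ml_pull_neg {X Y : A} (f : X ⟶ Y) (σ : BDual HB Y) :
    σ.pull (-f) = -σ.pull f := by
  apply LinearMap.ext
  intro x
  simp [HB.map_neg]

theorem ml_pull_smul [Linear ℚ A] {X Y : A} (a : ℚ) (f : X ⟶ Y) (σ : BDual HB Y) :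
    σ.pull (a • f) = a • σ.pull f := by
  apply LinearMap.ext
  intro x
  have : HB.map (a • f) = a • HB.map f := Functor.map_smul _ _ _
  simp [this]

theorem ml_add_pull {X Y : A} (f : X ⟶ Y) (σ τ : BDual HB Y) :
    (σ + τ : BDual HB Y).pull f = σ.pull f + τ.pull f := by
  apply LinearMap.ext
  intro x
  simp

theorem ml_fin (HB : A ⥤ ModuleCat.{0} ℚ) [FibreFunctor HB] (X : A) :
    Module.Finite ℚ (HB.obj X) := FibreFunctor.finite (H := HB) X

theorem ml_inj (HB : A ⥤ ModuleCat.{0} ℚ) [FibreFunctor HB] {X Y : A} (f : X ⟶ Y) [Mono f] :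
    Function.Injective (HB.map f).hom := by
  have : Mono (HB.map f) := inferInstance
  exact (ModuleCat.mono_iff_injective _).mp this

theorem ml_surj (HB : A ⥤ ModuleCat.{0} ℚ) [FibreFunctor HB] {X Y : A} (f : X ⟶ Y) [Epi f] :
    Function.Surjective (HB.map f).hom := by
  have : Epi (HB.map f) := inferInstance
  exact (ModuleCat.epi_iff_surjective _).mp this

theorem ml_rank_mono (HB : A ⥤ ModuleCat.{0} ℚ) [FibreFunctor HB] {X Y : A} (f : X ⟶ Y)
    [Mono f] : Module.finrank ℚ (HB.obj X) ≤ Module.finrank ℚ (HB.obj Y) := by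
  have := ml_fin HB Y
  exact LinearMap.finrank_le_finrank_of_injective (ml_inj HB f)

theorem ml_iso_of_rank (HB : A ⥤ ModuleCat.{0} ℚ) [FibreFunctor HB] {X Y : A} (f : X ⟶ Y)
    [Mono f] (h : Module.finrank ℚ (HB.obj Y) ≤ Module.finrank ℚ (HB.obj X)) : IsIso f := by
  have := ml_fin HB X
  have := ml_fin HB Y
  have hinj := ml_inj HB f
  have heq : Module.finrank ℚ (HB.obj X) = Module.finrank ℚ (HB.obj Y) :=
    le_antisymm (ml_rank_mono HB f) h
  have hsurj : Function.Surjective (HB.map f).hom :=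
    (LinearMap.injective_iff_surjective_of_finrank_eq_finrank heq).1 hinj
  have : IsIso (HB.map f) := by
    rw [ConcreteCategory.isIso_iff_bijective]
    exact ⟨hinj, hsurj⟩
  exact isIso_of_reflects_iso f HB

theorem ml_zero_of_rank (HB : A ⥤ ModuleCat.{0} ℚ) [FibreFunctor HB] {X : A}
    (h : Module.finrank ℚ (HB.obj X) = 0) : IsZero X := by
  have := ml_iso_of_rank HB (0 : (0 : A) ⟶ X) (by rw [h]; exact Nat.zero_le _)
  exact (isZero_zero A).of_iso (asIso (0 : (0 : A) ⟶ X)).symm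

theorem ml_rank_pos (HB : A ⥤ ModuleCat.{0} ℚ) [FibreFunctor HB] {X : A}
    (h : ¬ IsZero X) : 0 < Module.finrank ℚ (HB.obj X) :=
  Nat.pos_of_ne_zero fun h' => h (ml_zero_of_rank HB h')

theorem ml_zero_of_mono {X Y : A} (f : X ⟶ Y) [Mono f] (h : f = 0) : IsZero X := by
  rw [IsZero.iff_id_eq_zero, ← cancel_mono f, h]
  simp

theorem ml_rank_biprod (HB : A ⥤ ModuleCat.{0} ℚ) [FibreFunctor HB] (X Y : A) :
    Module.finrank ℚ (HB.obj (X ⊞ Y)) =
      Module.finrank ℚ (HB.obj X) + Module.finrank ℚ (HB.obj Y) := by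
  have := ml_fin HB X
  have := ml_fin HB Y
  rw [← Module.finrank_prod]
  refine LinearEquiv.finrank_eq (LinearEquiv.ofBijective
    ((HB.map (biprod.fst : X ⊞ Y ⟶ X)).hom.prod (HB.map (biprod.snd : X ⊞ Y ⟶ Y)).hom) ⟨?_, ?_⟩)
  · rw [← LinearMap.ker_eq_bot, LinearMap.ker_eq_bot']
    intro z hz
    have h1 : (HB.map (biprod.fst : X ⊞ Y ⟶ X)).hom z = 0 := congrArg Prod.fst hz
    have h2 : (HB.map (biprod.snd : X ⊞ Y ⟶ Y)).hom z = 0 := congrArg Prod.snd hz
    have h3 : (HB.map (𝟙 (X ⊞ Y))).hom z = 0 := by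
      rw [← biprod.total, HB.map_add, HB.map_comp, HB.map_comp]
      simp [h1, h2]
    simpa using h3
  · rintro ⟨x, y⟩
    refine ⟨(HB.map biprod.inl).hom x + (HB.map biprod.inr).hom y, ?_⟩
    have e : ∀ {P Q R : A} (f : P ⟶ Q) (g : Q ⟶ R) (z : HB.obj P),
        (HB.map g).hom ((HB.map f).hom z) = (HB.map (f ≫ g)).hom z := by
      intro P Q R f g z
      rw [HB.map_comp]; rfl
    refine Prod.ext ?_ ?_
    · change (HB.map (biprod.fst : X ⊞ Y ⟶ X)).hom
        ((HB.map biprod.inl).hom x + (HB.map biprod.inr).hom y) = x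
      rw [map_add, e, e, biprod.inl_fst, biprod.inr_fst, HB.map_id, HB.map_zero]
      exact add_zero x
    · change (HB.map (biprod.snd : X ⊞ Y ⟶ Y)).hom
        ((HB.map biprod.inl).hom x + (HB.map biprod.inr).hom y) = y
      rw [map_add, e, e, biprod.inl_snd, biprod.inr_snd, HB.map_id, HB.map_zero]
      exact zero_add y

/-- a linear form which vanishes on `HB(N')` comes from the cokernel -/
theorem ml_ext (HB : A ⥤ ModuleCat.{0} ℚ) [FibreFunctor HB] {N N' : A} (i : N' ⟶ N)
    (σ : BDual HB N) (hσ : σ.pull i = 0) :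
    ∃ σ' : BDual HB (cokernel i), σ = σ'.pull (cokernel.π i) := by
  have hsur := ml_surj HB (cokernel.π i)
  obtain ⟨s, hs⟩ := LinearMap.exists_rightInverse_of_surjective (HB.map (cokernel.π i)).hom
    (LinearMap.range_eq_top.mpr hsur)
  refine ⟨σ ∘ₗ s, ?_⟩
  apply LinearMap.ext
  intro x
  have h5 : (HB.map (cokernel.π i)).hom (x - s ((HB.map (cokernel.π i)).hom x)) = 0 := by
    rw [map_sub]
    have := LinearMap.congr_fun hs ((HB.map (cokernel.π i)).hom x)
    simp only [LinearMap.comp_apply, LinearMap.id_apply] at this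
    rw [this, sub_self]
  obtain ⟨y, hy⟩ : ∃ y, (HB.map i).hom y = x - s ((HB.map (cokernel.π i)).hom x) := by
    have h := (ShortComplex.exact_cokernel i).map HB
    exact (ShortComplex.moduleCat_exact_iff _).mp h _ h5
  have h6 : σ (x - s ((HB.map (cokernel.π i)).hom x)) = 0 := by
    rw [← hy]
    exact LinearMap.congr_fun hσ y
  rw [map_sub, sub_eq_zero] at h6
  exact h6

/-- `δ` does not vanish on a nonzero subobject. -/
def MlCog {Q : A} (δ : BDual HB Q) : Prop :=
  ∀ (N : A) (i : N ⟶ Q), Mono i → δ.pull i = 0 → IsZero N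

/-- The minimum in the definition of `cycleExpected`. -/
theorem ml_attain {W : A} (γ : BDual HB W) :
    ∃ (Q : A) (q : W ⟶ Q) (δ : BDual HB Q), Epi q ∧ δ.pull q = γ ∧
      Module.finrank ℚ (HB.obj Q) = cycleExpected HB γ ∧ MlCog δ := by
  have hne : {d | ∃ (Q : A) (q : W ⟶ Q) (δ : BDual HB Q),
      δ.pull q = γ ∧ Module.finrank ℚ (HB.obj Q) = d}.Nonempty :=
    ⟨_, W, 𝟙 W, γ, ml_pull_id γ, rfl⟩
  obtain ⟨Q, q, δ, hδ, hd⟩ := Nat.sInf_mem hne
  have hd' : Module.finrank ℚ (HB.obj Q) = cycleExpected HB γ := hd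
  have hmin : ∀ (Q' : A) (q' : W ⟶ Q') (δ' : BDual HB Q'), δ'.pull q' = γ →
      cycleExpected HB γ ≤ Module.finrank ℚ (HB.obj Q') := by
    intro Q' q' δ' h'
    exact Nat.sInf_le ⟨Q', q', δ', h', rfl⟩
  have h1 : (δ.pull (Abelian.image.ι q)).pull (Abelian.factorThruImage q) = γ := by
    rw [ml_pull_comp, Abelian.image.fac, hδ]
  have h2 : Module.finrank ℚ (HB.obj (Abelian.image q)) = cycleExpected HB γ :=
    le_antisymm ((ml_rank_mono HB (Abelian.image.ι q)).trans hd'.le) (hmin _ _ _ h1)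
  refine ⟨Abelian.image q, Abelian.factorThruImage q, δ.pull (Abelian.image.ι q), inferInstance,
    h1, h2, fun N i hi h0 => ?_⟩
  obtain ⟨δ'', hδ''⟩ := ml_ext HB i _ h0
  have hsur := ml_surj HB (cokernel.π i)
  have h5 : δ''.pull (Abelian.factorThruImage q ≫ cokernel.π i) = γ := by
    rw [← ml_pull_comp, ← hδ'', h1]
  have h6 := hmin _ _ _ h5
  have := ml_fin HB (Abelian.image q)
  have := ml_fin HB (cokernel i)
  have heq : Module.finrank ℚ (HB.obj (Abelian.image q)) =
      Module.finrank ℚ (HB.obj (cokernel i)) := by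
    apply le_antisymm
    · omega
    · exact LinearMap.finrank_le_finrank_of_surjective hsur
  have hinj := (LinearMap.injective_iff_surjective_of_finrank_eq_finrank heq).mpr hsur
  refine ml_zero_of_mono i ?_
  apply HB.map_injective
  rw [HB.map_zero]
  ext x
  apply hinj
  have h8 : HB.map i ≫ HB.map (cokernel.π i) = 0 := by
    rw [← HB.map_comp, cokernel.condition, HB.map_zero]
  have h9 := congrArg (fun f => f.hom x) h8
  simpa using h9

theorem ml_cog_hom {V Q : A} {δ : BDual HB Q} (hδ : MlCog δ) (f : V ⟶ Q)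
    (h : δ.pull f = 0) : f = 0 := by
  have h1 : δ.pull (Abelian.image.ι f) = 0 := by
    have hs := ml_surj HB (Abelian.factorThruImage f)
    apply LinearMap.ext
    intro x
    obtain ⟨y, rfl⟩ := hs x
    have h2 : ((δ.pull (Abelian.image.ι f)).pull (Abelian.factorThruImage f)) y = 0 := by
      rw [ml_pull_comp, Abelian.image.fac, h]
      rfl
    exact h2
  have h2 := hδ _ _ inferInstance h1
  rw [← Abelian.image.fac f, h2.eq_of_src (Abelian.image.ι f) 0, comp_zero]

/-- `V` has no subobjects but `0` and `V`, and is not zero. -/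
def MlMin (V : A) : Prop :=
  ¬ IsZero V ∧ ∀ (U : A) (i : U ⟶ V), Mono i → ¬ IsZero U → IsIso i

theorem ml_exists_min (HB : A ⥤ ModuleCat.{0} ℚ) [FibreFunctor HB] {X : A} (hX : ¬ IsZero X) :
    ∃ (V : A) (j : V ⟶ X), Mono j ∧ MlMin V := by
  classical
  let Pr : ℕ → Prop := fun d => ∃ (V : A) (j : V ⟶ X), Mono j ∧ ¬ IsZero V ∧
    Module.finrank ℚ (HB.obj V) = d
  have hP : ∃ d, Pr d := ⟨_, X, 𝟙 X, inferInstance, hX, rfl⟩
  obtain ⟨V, j, hj, hV, hd⟩ := Nat.find_spec hP
  refine ⟨V, j, hj, hV, fun U i hi hU => ?_⟩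
  refine ml_iso_of_rank HB i ?_
  rw [hd]
  exact Nat.find_min' hP ⟨U, i ≫ j, inferInstance, hU, rfl⟩

theorem ml_hom_min {V X : A} (hV : MlMin V) (f : V ⟶ X) (hf : f ≠ 0) : Mono f := by
  refine Abelian.mono_of_kernel_ι_eq_zero f ?_
  by_contra h
  have h1 : ¬ IsZero (kernel f) := fun hz => h (hz.eq_of_src _ _)
  have := hV.2 _ (kernel.ι f) inferInstance h1
  exact hf (by rw [← cancel_epi (kernel.ι f), kernel.condition, comp_zero])

/-- Two linear forms on `HB(X ⊞ Y)` which agree on both summands are equal. -/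
theorem ml_biprod_ext {X Y : A} (σ τ : BDual HB (X ⊞ Y)) (h1 : σ.pull biprod.inl = τ.pull biprod.inl)
    (h2 : σ.pull biprod.inr = τ.pull biprod.inr) : σ = τ := by
  have e : ∀ ρ : BDual HB (X ⊞ Y), ρ = (ρ.pull biprod.inl).pull biprod.fst +
      (ρ.pull biprod.inr).pull biprod.snd := by
    intro ρ
    rw [ml_pull_comp, ml_pull_comp, ← ml_pull_add, biprod.total, ml_pull_id]
  rw [e σ, e τ, h1, h2]

/-- If a cycle for `B` is not an inverse image of `γ`, then this is so already for its restriction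
to a simple subobject (semisimple case). -/
theorem ml_simple_witness [RigidCategory A] {T B W : A} (hss : SemisimpleGen T) (gB : Gen T B)
    (γ : BDual HB W) (s : BDual HB B) (hs : ∀ f : B ⟶ W, γ.pull f ≠ s) :
    ∃ (V : A) (j : V ⟶ B), Mono j ∧ MlMin V ∧ ∀ f : V ⟶ W, γ.pull f ≠ s.pull j := by
  classical
  let Pr : ℕ → Prop := fun d => ∃ (N : A) (i : N ⟶ B), Mono i ∧
    (∃ f : N ⟶ W, γ.pull f = s.pull i) ∧ Module.finrank ℚ (HB.obj N) = d
  have hb : ∀ d, Pr d → d ≤ Module.finrank ℚ (HB.obj B) := by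
    rintro d ⟨N, i, hi, -, rfl⟩
    exact ml_rank_mono HB i
  have h0 : ∃ d, Pr d := ⟨_, 0, (0 : (0 : A) ⟶ B), inferInstance,
    ⟨0, by rw [ml_pull_zero, ml_pull_zero]⟩, rfl⟩
  obtain ⟨d0, hd0⟩ := h0
  obtain ⟨N, i, hi, ⟨f, hf⟩, hN⟩ := Nat.findGreatest_spec (P := Pr) (hb d0 hd0) hd0
  obtain ⟨r, hr⟩ := hss B N i hi gB
  have hK : ¬ IsZero (kernel r) := by
    intro hz
    have hm : Mono r := Abelian.mono_of_kernel_ι_eq_zero r (hz.eq_of_src _ _)
    have h1 : r ≫ i = 𝟙 B := by
      rw [← cancel_mono r, Category.assoc, hr, Category.comp_id, Category.id_comp]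
    refine hs (r ≫ f) ?_
    rw [← ml_pull_comp, hf, ml_pull_comp, h1, ml_pull_id]
  obtain ⟨V, j0, hj0, hV⟩ := ml_exists_min HB hK
  refine ⟨V, j0 ≫ kernel.ι r, inferInstance, hV, fun g hg => ?_⟩
  have hjr : (j0 ≫ kernel.ι r) ≫ r = 0 := by
    rw [Category.assoc, kernel.condition, comp_zero]
  have hm : Mono (biprod.desc i (j0 ≫ kernel.ι r)) := by
    refine Preadditive.mono_of_cancel_zero _ fun x hx => ?_
    have h1 : biprod.desc i (j0 ≫ kernel.ι r) ≫ r = biprod.fst := by
      refine biprod.hom_ext' _ _ ?_ ?_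
      · rw [biprod.inl_desc_assoc, hr, biprod.inl_fst]
      · rw [biprod.inr_desc_assoc, hjr, biprod.inr_fst]
    have h2 : x ≫ biprod.fst = 0 := by
      rw [← h1, ← Category.assoc, hx, zero_comp]
    have h3 : x = (x ≫ biprod.snd) ≫ biprod.inr := by
      have h4 : x = x ≫ (biprod.fst ≫ biprod.inl + biprod.snd ≫ biprod.inr) := by
        rw [biprod.total, Category.comp_id]
      rw [Preadditive.comp_add, ← Category.assoc, h2, zero_comp, zero_add] at h4
      rw [Category.assoc]
      exact h4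
    have h4 : (x ≫ biprod.snd) ≫ (j0 ≫ kernel.ι r) = 0 := by
      rw [h3, Category.assoc, biprod.inr_desc] at hx
      exact hx
    have h5 : x ≫ biprod.snd = 0 := by
      rw [← cancel_mono (j0 ≫ kernel.ι r), h4, zero_comp]
    rw [h3, h5, zero_comp]
  have h6 : Pr (Module.finrank ℚ (HB.obj (N ⊞ V))) := by
    refine ⟨N ⊞ V, _, hm, ⟨biprod.desc f g, ml_biprod_ext _ _ ?_ ?_⟩, rfl⟩
    · rw [ml_pull_comp, ml_pull_comp, biprod.inl_desc, biprod.inl_desc, hf]
    · rw [ml_pull_comp, ml_pull_comp, biprod.inr_desc, biprod.inr_desc, hg]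
  have h7 := Nat.le_findGreatest (P := Pr) (hb _ h6) h6
  rw [← hN, ml_rank_biprod] at h7
  have h8 := ml_rank_pos HB hV.1
  omega

/-- **Maximal cycles in the semisimple case.** If `W` contains `q` copies of `B`, and the simple
subobjects of `B` are of rank at most `q`, then every cycle for `B` is the inverse image of every
maximal cycle for `W`. -/
theorem maxlift [RigidCategory A] [Linear ℚ A] {T B W : A} (hss : SemisimpleGen T)
    (gB : Gen T B) (gW : Gen T W) (q : ℕ) (hcop : HasCopies HB B W q)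
    (hq : ∀ (V : A) (j : V ⟶ B), Mono j → MlMin V → Module.finrank ℚ (HB.obj V) ≤ q)
    (γ : BDual HB W) (hγ : MaximalCycle HB γ) (s : BDual HB B) : ∃ f : B ⟶ W, γ.pull f = s := by
  classical
  by_contra hs
  push Not at hs
  obtain ⟨V, j, hj, hV, hVs⟩ := ml_simple_witness hss gB γ s hs
  obtain ⟨Q, p, δ, hp, hδ, hd, hcog⟩ := ml_attain γ
  have gQ : Gen T Q := Gen.quot p gW
  -- a section of `p`
  obtain ⟨r, hr⟩ := hss W (kernel p) (kernel.ι p) inferInstance gW
  obtain ⟨sec, hsec⟩ : ∃ sec : Q ⟶ W, sec ≫ p = 𝟙 Q := by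
    have h1 : kernel.ι p ≫ (𝟙 W - r ≫ kernel.ι p) = 0 := by
      rw [Preadditive.comp_sub, ← Category.assoc, hr, Category.id_comp, Category.comp_id,
        sub_self]
    refine ⟨Abelian.epiDesc p _ h1, ?_⟩
    rw [← cancel_epi p, ← Category.assoc, Abelian.comp_epiDesc, Preadditive.sub_comp,
      Category.assoc, kernel.condition, comp_zero, sub_zero, Category.id_comp, Category.comp_id]
  -- a nonzero morphism `V ⟶ W` killed by `p`
  obtain ⟨h, hh0, hhp⟩ : ∃ h : V ⟶ W, h ≠ 0 ∧ h ≫ p = 0 := by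
    obtain ⟨ι, π, hιπ⟩ := hcop
    have hιπ' : ∀ a b, ι a ≫ π b = if a = b then 𝟙 B else 0 := by
      intro a b
      apply HB.map_injective
      ext y
      have h1 := hιπ a b y
      rw [HB.map_comp]
      by_cases hab : a = b
      · rw [if_pos hab] at h1 ⊢
        rw [HB.map_id]
        exact h1
      · rw [if_neg hab] at h1 ⊢
        rw [HB.map_zero]
        exact h1
    let vv : Option (Fin q) → BDual HB V := fun o => o.elim (s.pull j) fun a => γ.pull (j ≫ ι a)
    have hVfin := ml_fin HB V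
    have hnot : ¬ LinearIndependent ℚ vv := by
      intro hli
      have h1 := hli.fintype_card_le_finrank
      rw [Fintype.card_option, Fintype.card_fin, Subspace.dual_finrank_eq] at h1
      have h2 := hq V j hj hV
      omega
    rw [Fintype.not_linearIndependent_iff] at hnot
    obtain ⟨cf, hcf, o, ho⟩ := hnot
    rw [Fintype.sum_option] at hcf
    set F : V ⟶ W := ∑ a, cf (some a) • (j ≫ ι a) with hF
    have hFp : γ.pull F = ∑ a, cf (some a) • vv (some a) := by
      have h1 : ∀ (t : Finset (Fin q)), γ.pull (∑ a ∈ t, cf (some a) • (j ≫ ι a)) =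
          ∑ a ∈ t, cf (some a) • vv (some a) := by
        intro t
        induction t using Finset.induction_on with
        | empty => rw [Finset.sum_empty, Finset.sum_empty, ml_pull_zero]
        | insert a t ha ih =>
          rw [Finset.sum_insert ha, Finset.sum_insert ha, ml_pull_add, ih, ml_pull_smul]
          rfl
      exact h1 _
    rw [← hFp] at hcf
    have hc0 : cf none = 0 := by
      by_contra hc
      refine hVs (-((cf none)⁻¹ • F)) ?_
      rw [ml_pull_neg, ml_pull_smul]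
      have h1 : γ.pull F = -(cf none • s.pull j) := by
        rw [eq_neg_iff_add_eq_zero, add_comm]
        exact hcf
      rw [h1, smul_neg, neg_neg, smul_smul, inv_mul_cancel₀ hc, one_smul]
    rw [hc0, zero_smul, zero_add] at hcf
    refine ⟨F, fun hF0 => ?_, ?_⟩
    · cases o with
      | none => exact ho hc0
      | some b =>
        have h1 : F ≫ π b = cf (some b) • j := by
          rw [hF, Preadditive.sum_comp]
          rw [Finset.sum_eq_single b]
          · rw [Linear.smul_comp, Category.assoc, hιπ', if_pos rfl, Category.comp_id]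
          · intro a _ hab
            rw [Linear.smul_comp, Category.assoc, hιπ', if_neg hab, comp_zero, smul_zero]
          · intro h; exact absurd (Finset.mem_univ _) h
        rw [hF0, zero_comp] at h1
        have h2 : j = 0 := by
          have h3 := congrArg (fun x => (cf (some b))⁻¹ • x) h1
          simp only [smul_zero, smul_smul] at h3
          rw [inv_mul_cancel₀ ho, one_smul] at h3
          exact h3.symm
        exact hV.1 (ml_zero_of_mono j h2)
    · refine ml_cog_hom hcog _ ?_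
      rw [← ml_pull_comp, hδ]
      exact hcf
  have hhm : Mono h := ml_hom_min hV h hh0
  obtain ⟨ρ0, hρ0⟩ := hss W V h hhm gW
  set ρ : W ⟶ V := ρ0 - p ≫ sec ≫ ρ0 with hρ
  have hsρ : sec ≫ ρ = 0 := by
    rw [hρ, Preadditive.comp_sub, ← Category.assoc sec p, hsec, Category.id_comp, sub_self]
  have hhρ : h ≫ ρ = 𝟙 V := by
    rw [hρ, Preadditive.comp_sub, ← Category.assoc h p, hhp, zero_comp, sub_zero, hρ0]
  -- the new cycle
  obtain ⟨Q', q', δ', -, hδ', hd', -⟩ := ml_attain (γ + (s.pull j).pull ρ : BDual HB W)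
  have hle : Module.finrank ℚ (HB.obj Q') ≤ Module.finrank ℚ (HB.obj Q) := by
    rw [hd, hd']
    exact hγ _
  have hγh : γ.pull h = 0 := by
    rw [← hδ, ml_pull_comp, hhp, ml_pull_zero]
  set uu : Q ⊞ V ⟶ Q' := biprod.desc (sec ≫ q') (h ≫ q') with huu
  have hu1 : δ'.pull (biprod.inl ≫ uu) = δ := by
    rw [huu, biprod.inl_desc, ← ml_pull_comp, hδ', ml_add_pull, ml_pull_comp, hsρ, ml_pull_zero,
      add_zero, ← hδ, ml_pull_comp, hsec, ml_pull_id]
  have hu2 : δ'.pull (biprod.inr ≫ uu) = s.pull j := by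
    rw [huu, biprod.inr_desc, ← ml_pull_comp, hδ', ml_add_pull, ml_pull_comp, hhρ, ml_pull_id,
      hγh, zero_add]
  have hJ : ¬ IsZero (kernel uu) := by
    intro hz
    have hm : Mono uu := Abelian.mono_of_kernel_ι_eq_zero uu (hz.eq_of_src _ _)
    have h1 := ml_rank_mono HB uu
    rw [ml_rank_biprod] at h1
    have h2 := ml_rank_pos HB hV.1
    omega
  set κ := kernel.ι uu with hκ
  have hκu : κ ≫ uu = 0 := kernel.condition uu
  have hθ : ∀ {X : A} (x : X ⟶ Q ⊞ V), x ≫ uu = 0 →
      δ.pull (x ≫ biprod.fst) + (s.pull j).pull (x ≫ biprod.snd) = 0 := by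
    intro X x hx
    have h1 : x = (x ≫ biprod.fst) ≫ biprod.inl + (x ≫ biprod.snd) ≫ biprod.inr := by
      rw [Category.assoc, Category.assoc, ← Preadditive.comp_add, biprod.total, Category.comp_id]
    have h2 : δ'.pull (x ≫ uu) = 0 := by rw [hx, ml_pull_zero]
    rw [h1, Preadditive.add_comp, ml_pull_add, Category.assoc (x ≫ biprod.fst),
      Category.assoc (x ≫ biprod.snd), ← ml_pull_comp (x ≫ biprod.fst),
      ← ml_pull_comp (x ≫ biprod.snd), hu1, hu2] at h2
    exact h2
  have hp2 : Mono (κ ≫ biprod.snd) := by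
    refine Abelian.mono_of_kernel_ι_eq_zero _ ?_
    set ι0 := kernel.ι (κ ≫ (biprod.snd : Q ⊞ V ⟶ V)) with hι0
    have h1 : (ι0 ≫ κ) ≫ biprod.snd = 0 := by
      rw [Category.assoc]
      exact kernel.condition _
    have h2 := hθ (ι0 ≫ κ) (by rw [Category.assoc, hκu, comp_zero])
    rw [h1, ml_pull_zero, add_zero] at h2
    have h3 := ml_cog_hom hcog _ h2
    have h4 : ι0 ≫ κ = 0 := by
      refine biprod.hom_ext _ _ ?_ ?_
      · rw [h3, zero_comp]
      · rw [h1, zero_comp]
    rw [← cancel_mono κ, h4, zero_comp]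
  have hiso := hV.2 _ (κ ≫ biprod.snd) hp2 hJ
  have h5 := hθ (inv (κ ≫ biprod.snd) ≫ κ) (by
    rw [Category.assoc, hκu, comp_zero])
  have h6 : (inv (κ ≫ (biprod.snd : Q ⊞ V ⟶ V)) ≫ κ) ≫ biprod.snd = 𝟙 V := by
    rw [Category.assoc, IsIso.inv_hom_id]
  rw [h6, ml_pull_id] at h5
  refine hVs (-(((inv (κ ≫ (biprod.snd : Q ⊞ V ⟶ V)) ≫ κ) ≫ biprod.fst) ≫ sec)) ?_
  rw [ml_pull_neg, ← hδ, ml_pull_comp, Category.assoc _ sec, hsec, Category.comp_id,
    neg_eq_iff_add_eq_zero]
  exact h5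

end

end Pool.Agent.Lib.MP_ae0f86_nt.GC
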