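import Pool.Agent.Lib.MP_ae0f86_nt.GC.Si
import Pool.Agent.Lib.MP_ae0f86_nt.GC.MaxLift

/-!
# MP_ae0f86_nt : single integrals over one maximal cycle
-/

open CategoryTheory CategoryTheory.Limits Opposite MonoidalCategory Filter

universe w v u

namespace Pool.Agent.Lib.MP_ae0f86_nt.GC

noncomputable section

attribute [local instance] CategoryTheory.Abelian.hasFiniteBiproducts

variable {A : Type u} [Category.{v} A] [Abelian A] [MonoidalCategory A] [SymmetricCategory A]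
  [RigidCategory A] {HdR : A ⥤ ModuleCat.{0} QBar} {HB : A ⥤ ModuleCat.{0} ℚ}
  [FibreFunctor HdR] [FibreFunctor HB]

/-- The rank of a simple object is at most its number `N`. -/
theorem ml_min_rank [Linear ℚ A] (c : Comparison HdR HB) (hcmp : S_cmp c) {V : A}
    (hV : MlMin V) : Module.finrank ℚ (HB.obj V) ≤ Nf HB V := by
  obtain ⟨σ, hσ⟩ := exists_dual_ne HB hV.1
  obtain ⟨Q, p, δ, -, hδ, hd, -⟩ := ml_attain σ
  have hp : p ≠ 0 := by
    rintro rfl
    rw [ml_pull_zero] at hδ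
    exact hσ hδ.symm
  have := ml_hom_min hV p hp
  have h1 := ml_rank_mono HB p
  rw [hd] at h1
  exact h1.trans (hcmp.2.1 V σ).1

/-- Maximal cycles are complete in all levels `k` which are not too large. -/
theorem maximal_complete [Linear ℚ A] (c : Comparison HdR HB) (hcmp : S_cmp c)
    (hfwpow : S_fwpow c) (hcop : S_cop HB)
    (hmch : S_mch) {L inv : A} (iso : L ⊗ inv ≅ 𝟙_ A) {w : ℕ} {T : A} (hss : SemisimpleGen T)
    (hT : Nonempty (T ≅ Tᘁ ⊗ tpow L w)) (hb : 2 ≤ Module.finrank ℚ (HB.obj T)) (k n : ℕ)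
    (hk : k ≤ n)
    (hcond : (2 * k + 1) ^ (Module.finrank ℚ (HB.obj T) ^ 2) ≤ 2 ^ ((n - k) / 2))
    (γ : BDual HB (tpow T (2 * n))) (hγ : MaximalCycle HB γ) : CompleteCycle L w T k n γ := by
  have hgc : S_genclosed (A := A) := a_genclosed
  obtain ⟨m, rfl⟩ := Nat.exists_eq_add_of_le hk
  rw [Nat.add_sub_cancel_left] at hcond
  obtain ⟨I, P, hIP⟩ := ex_copies (HB := HB) hss hT hb m _ le_rfl
  obtain ⟨φ⟩ : Nonempty (tpow T (2 * k) ⊗ tpow T (2 * m) ≅ tpow T (2 * (k + m))) := by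
    rw [← iso_cls_eq]
    simp only [iso_cls_tensor, iso_cls_tpow]
    rw [mul_add, pow_add]
  have h1 : HasCopies HB (tpow L (w * m)) (tpow T (2 * m)) (2 ^ (m / 2)) := ⟨I, P, hIP⟩
  have h2 := hcop.2.2.1 _ _ _ _ 1 _ (hcop.1 _ _ (Iso.refl (tpow T (2 * k)))) h1
  have h3 : HasCopies HB (tpow T (2 * k) ⊗ tpow L (w * m)) (tpow T (2 * (k + m)))
      (1 * 2 ^ (m / 2) * 1) := hcop.2.1 _ _ _ _ _ h2 (hcop.1 _ _ φ)
  rw [one_mul, mul_one] at h3
  have h4 := hcop.2.2.2.1 _ _ 1 _ Nat.one_le_two_pow h3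
  obtain ⟨i, hi⟩ := mono_of_copy HB h4
  have gW : Gen T (tpow T (2 * (k + m))) := genpow_mem T _
  have gN : Gen T (tpow T (2 * k) ⊗ tpow L (w * m)) := Gen.sub i gW
  have hTc := hgc.1 T
  have h5 : Nf HB (tpow T (2 * k) ⊗ tpow L (w * m)) ≤ 2 ^ (m / 2) := by
    have e2 := (a_twisteqv c L inv (tpow T (2 * k)) iso (w * m)).1
    have e3 : Module.finrank QBar (fw HdR HB (genpow_mem T (2 * k))) =
      Nf HB (tpow T (2 * k)) := a_fwdim c hTc _
    rw [e2, ← e3]
    refine (hfwpow.2.1 hTc Gen.base (2 * k) (genpow_mem T (2 * k))).trans ?_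
    obtain ⟨B, hB⟩ : ∃ B, Module.finrank ℚ (HB.obj T) ^ 2 = B + 1 := by
      refine ⟨Module.finrank ℚ (HB.obj T) ^ 2 - 1, ?_⟩
      have : 0 < Module.finrank ℚ (HB.obj T) ^ 2 := by positivity
      omega
    rw [hB] at hcond ⊢
    refine (hmch.2.1 B (2 * k)).trans (le_trans ?_ hcond)
    exact Nat.pow_le_pow_right (by omega) (Nat.le_succ B)
  unfold CompleteCycle
  rw [Nat.add_sub_cancel_left]
  refine maxlift hss gN gW _ h3 (fun V j hj hV => ?_) γ hγ
  refine (ml_min_rank c hcmp hV).trans (le_trans ?_ h5)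
  have hl : S_lincl A := a_lincl
  exact (a_lineqv c _ _ ((hl.1 _).sub j (hl.2.1 _))).1

/-- Single integrals over one maximal cycle. -/
theorem p_msi [Linear ℚ A] (c : Comparison HdR HB)
    (hfwpow : S_fwpow c) (hcop : S_cop HB)
    (hmch : S_mch) (hcmp : S_cmp c) (hmax : S_gmax HB) (g : TensorGrading HdR)
    (Λ : Lefschetz c g) (w : ℕ) (T : A) (hss : SemisimpleGen T)
    (hT : Nonempty (T ≅ Tᘁ ⊗ tpow Λ.L w)) :
    (∀ W : A, ForGeneric HB W (MaximalCycle HB)) ∧
    (∀ n γ, independent c (tpow T (2 * n)) = expected HB (tpow T (2 * n)) →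
      ¬ UnexpectedOver Λ w T n γ) ∧
    (∀ k n γ, k ≤ n → (2 * k + 1) ^ (Module.finrank ℚ (HB.obj T) ^ 2) ≤ 2 ^ ((n - k) / 2) →
      MaximalCycle HB γ → ¬ UnexpectedOver Λ w T n γ →
        independent c (tpow T k) = expected HB (tpow T k)) ∧
    ∀ γ : ∀ n, BDual HB (tpow T (2 * n)), (∀ n, MaximalCycle HB (γ n)) →
      List.TFAE [
        ∀ n, independent c (tpow T n) = expected HB (tpow T n),
        ∀ n γ', ¬ UnexpectedOver Λ w T n γ',
        ∃ᶠ n in atTop, ¬ UnexpectedOver Λ w T n (γ n)] ∧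
      ((∃ᶠ n in atTop, ¬ UnexpectedOver Λ w T n (γ n)) →
        ringKrullDim (PerAlg HB HB (Gen T)) ≤
          ((Cardinal.toENat (Algebra.trdeg ℚ (IntermediateField.adjoin ℚ (c.Per T))) : ℕ∞) :
            WithBot ℕ∞) + 1) ∧
      (Lin T (𝟙_ A) →
        (PeriodConjecture c T ↔ ∃ᶠ n in atTop, ¬ UnexpectedOver Λ w T n (γ n))) := by
  refine ⟨hmax, (oneCycle c g Λ w T hss hT).2.1, ?_⟩
  rcases Nat.lt_or_ge (Module.finrank ℚ (HB.obj T)) 2 with hb | hb
  · have hall : ∀ n, independent c (tpow T n) = expected HB (tpow T n) := by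
      intro n
      refine rank_le_one c hcmp _ ?_
      rw [finrank_tpow_obj']
      exact pow_le_one' (by omega) n
    exact ⟨fun k n γ _ _ _ _ => hall k, fun γ _ => si_tail c g Λ w T hss hT γ fun _ => hall⟩
  · have hcpl : ∀ (k n : ℕ) (γ : BDual HB (tpow T (2 * n))), k ≤ n →
        (2 * k + 1) ^ (Module.finrank ℚ (HB.obj T) ^ 2) ≤ 2 ^ ((n - k) / 2) →
        MaximalCycle HB γ → CompleteCycle Λ.L w T k n γ := fun k n γ hk hcond hγ =>
      maximal_complete c hcmp hfwpow hcop hmch Λ.iso hss hT hb k n hk hcond γ hγ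
    refine ⟨?_, ?_⟩
    · intro k n γ hk hcond hG hun
      by_contra hne
      exact hun (one_local Λ w T hss hT k n hk γ (hcpl k n γ hk hcond hG) hne)
    · intro γ hG
      refine si_tail c g Λ w T hss hT γ fun h k => ?_
      by_contra hne
      apply h
      have hev : ∀ᶠ n in atTop,
          (2 * k + 1) ^ (Module.finrank ℚ (HB.obj T) ^ 2) ≤ 2 ^ ((n - k) / 2) := by
        set X := (2 * k + 1) ^ (Module.finrank ℚ (HB.obj T) ^ 2) with hX
        filter_upwards [eventually_ge_atTop (k + 2 * X)] with n hn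
        have h1 : X ≤ (n - k) / 2 := by omega
        exact h1.trans (Nat.lt_two_pow_self).le
      filter_upwards [hev, eventually_ge_atTop k] with n h1 h2 h3
      exact h3 (one_local Λ w T hss hT k n h2 (γ n) (hcpl k n (γ n) h2 h1 (hG n)) hne)

end

end Pool.Agent.Lib.MP_ae0f86_nt.GC
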