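import Pool.Agent.Lib.MP_ae0f86_nt.S.One
import Pool.Agent.Lib.MP_ae0f86_nt.GC.Law

/-!
# MP_ae0f86_nt : single integrals over one generic cycle
-/

open CategoryTheory CategoryTheory.Limits Opposite MonoidalCategory Filter

universe w v u

namespace Pool.Agent.Lib.MP_ae0f86_nt.GC

noncomputable section

attribute [local instance] CategoryTheory.Abelian.hasFiniteBiproducts

variable {A : Type u} [Category.{v} A] [Abelian A] [MonoidalCategory A] [SymmetricCategory A]
  [RigidCategory A] {HdR : A ⥤ ModuleCat.{0} QBar} {HB : A ⥤ ModuleCat.{0} ℚ}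
  [FibreFunctor HdR] [FibreFunctor HB]

omit [RigidCategory A] in
theorem mono_of_copy (HB : A ⥤ ModuleCat.{0} ℚ) [FibreFunctor HB] {N W : A}
    (h : HasCopies HB N W 1) : ∃ (i : N ⟶ W), Mono i := by
  obtain ⟨ι, π, hιπ⟩ := h
  have h1 : ι 0 ≫ π 0 = 𝟙 N := by
    apply HB.map_injective
    rw [HB.map_comp, HB.map_id]
    ext y
    have := hιπ 0 0 y
    rw [if_pos rfl] at this
    exact this
  exact ⟨ι 0, (SplitMono.mk (π 0) h1).mono⟩

/-- Generic cycles are complete in all levels `k` which are not too large. -/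
theorem generic_complete [Linear ℚ A] (c : Comparison HdR HB) (hgen : S_gen HdR HB)
    (hfwpow : S_fwpow c) (hlift : S_lift HdR HB) (hand : S_and HB) (hcop : S_cop HB)
    (hmch : S_mch) {L inv : A} (iso : L ⊗ inv ≅ 𝟙_ A) {w : ℕ} {T : A} (hss : SemisimpleGen T)
    (hT : Nonempty (T ≅ Tᘁ ⊗ tpow L w)) (hb : 2 ≤ Module.finrank ℚ (HB.obj T)) (n : ℕ) :
    ForGeneric HB (tpow T (2 * n)) (fun γ => ∀ k < n + 1,
      (2 * k + 1) ^ (Module.finrank ℚ (HB.obj T) ^ 2) ≤ 2 ^ ((n - k) / 2) →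
        CompleteCycle L w T k n γ) := by
  have hgc : S_genclosed (A := A) := a_genclosed
  refine hand.2.2.2.1 _ _ _ fun k hk => ?_
  by_cases hcond : (2 * k + 1) ^ (Module.finrank ℚ (HB.obj T) ^ 2) ≤ 2 ^ ((n - k) / 2)
  swap
  · exact hand.1 _ _ fun γ h => absurd h hcond
  obtain ⟨m, rfl⟩ := Nat.exists_eq_add_of_le (Nat.lt_succ_iff.1 hk)
  rw [Nat.add_sub_cancel_left] at hcond
  obtain ⟨I, P, hIP⟩ := ex_copies (HB := HB) hss hT hb m _ le_rfl
  obtain ⟨φ⟩ : Nonempty (tpow T (2 * k) ⊗ tpow T (2 * m) ≅ tpow T (2 * (k + m))) := by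
    rw [← iso_cls_eq]
    simp only [iso_cls_tensor, iso_cls_tpow]
    rw [mul_add, pow_add]
  have h1 : HasCopies HB (tpow L (w * m)) (tpow T (2 * m)) (2 ^ (m / 2)) := ⟨I, P, hIP⟩
  have h2 := hcop.2.2.1 _ _ _ _ 1 _ (hcop.1 _ _ (Iso.refl (tpow T (2 * k)))) h1
  have h3 : HasCopies HB (tpow T (2 * k) ⊗ tpow L (w * m)) (tpow T (2 * (k + m)))
      (1 * 2 ^ (m / 2) * 1) := hcop.2.1 _ _ _ _ _ h2 (hcop.1 _ _ φ)
  rw [one_mul, mul_one] at h3
  have h4 := hcop.2.2.2.1 _ _ 1 _ Nat.one_le_two_pow h3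
  obtain ⟨i, hi⟩ := mono_of_copy HB h4
  have gW : Gen T (tpow T (2 * (k + m))) := genpow_mem T _
  have gN : Gen T (tpow T (2 * k) ⊗ tpow L (w * m)) := Gen.sub i gW
  have hTc := hgc.1 T
  have h5 : Module.finrank QBar (fw HdR HB gN) ≤ 2 ^ (m / 2) := by
    have e1 : Module.finrank QBar (fw HdR HB gN) = Nf HB (tpow T (2 * k) ⊗ tpow L (w * m)) :=
      a_fwdim c hTc gN
    have e2 := (a_twisteqv c L inv (tpow T (2 * k)) iso (w * m)).1
    have e3 : Module.finrank QBar (fw HdR HB (genpow_mem T (2 * k))) =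
      Nf HB (tpow T (2 * k)) := a_fwdim c hTc _
    rw [e1, e2, ← e3]
    refine (hfwpow.2.1 hTc Gen.base (2 * k) (genpow_mem T (2 * k))).trans ?_
    obtain ⟨B, hB⟩ : ∃ B, Module.finrank ℚ (HB.obj T) ^ 2 = B + 1 := by
      refine ⟨Module.finrank ℚ (HB.obj T) ^ 2 - 1, ?_⟩
      have : 0 < Module.finrank ℚ (HB.obj T) ^ 2 := by positivity
      omega
    rw [hB] at hcond ⊢
    refine (hmch.2.1 B (2 * k)).trans (le_trans ?_ hcond)
    exact Nat.pow_le_pow_right (by omega) (Nat.le_succ B)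
  refine hand.2.1 _ _ _ (hgen gN gW _ h3 h5) fun γ hγ _ => ?_
  unfold CompleteCycle
  rw [Nat.add_sub_cancel_left]
  exact hlift T hss gN gW γ hγ

/-- For an object of rank at most one all predicted periods are independent. -/
theorem rank_le_one [Linear ℚ A] (c : Comparison HdR HB) (hcmp : S_cmp c) (W : A)
    (h : Module.finrank ℚ (HB.obj W) ≤ 1) : independent c W = expected HB W := by
  obtain ⟨hPN, hle, hge1, -, hNb⟩ := hcmp
  have h1 := hNb W
  have h2 : Nf HB W ≤ 1 := h1.trans (by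
    have : Module.finrank ℚ (HB.obj W) ^ 2 ≤ 1 ^ 2 := Nat.pow_le_pow_left h 2
    simpa using this)
  have h3 : Pf c W ≤ Nf HB W := Pf_le_Nf c W
  by_cases hz : IsZero W
  · have h4 : Nf HB W ≤ 0 := h1.trans (by
      have : Subsingleton (HB.obj W) :=
        ⟨fun a b => (obj_zero HB hz a).trans (obj_zero HB hz b).symm⟩
      rw [Module.finrank_zero_of_subsingleton]
      norm_num)
    change Pf c W = Nf HB W
    omega
  · obtain ⟨τ, hτ⟩ := exists_dual_ne HB hz
    have h4 := hge1 W τ hτ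
    have h5 := (hle W τ).2
    change Pf c W = Nf HB W
    omega

/-- The equivalences, from the implication (3) → (1). -/
theorem si_tail [Linear ℚ A] (c : Comparison HdR HB) (g : TensorGrading HdR)
    (Λ : Lefschetz c g) (w : ℕ) (T : A) (hss : SemisimpleGen T)
    (hT : Nonempty (T ≅ Tᘁ ⊗ tpow Λ.L w)) (γ : ∀ n, BDual HB (tpow T (2 * n)))
    (e31 : (∃ᶠ n in atTop, ¬ UnexpectedOver Λ w T n (γ n)) →
      ∀ n, independent c (tpow T n) = expected HB (tpow T n)) :
    List.TFAE [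
        ∀ n, independent c (tpow T n) = expected HB (tpow T n),
        ∀ n γ', ¬ UnexpectedOver Λ w T n γ',
        ∃ᶠ n in atTop, ¬ UnexpectedOver Λ w T n (γ n)] ∧
      ((∃ᶠ n in atTop, ¬ UnexpectedOver Λ w T n (γ n)) →
        ringKrullDim (PerAlg HB HB (Gen T)) ≤
          ((Cardinal.toENat (Algebra.trdeg ℚ (IntermediateField.adjoin ℚ (c.Per T))) : ℕ∞) :
            WithBot ℕ∞) + 1) ∧
      (Lin T (𝟙_ A) →
        (PeriodConjecture c T ↔ ∃ᶠ n in atTop, ¬ UnexpectedOver Λ w T n (γ n))) := by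
  have hloc := (oneCycle c g Λ w T hss hT).2.1
  have e12 : (∀ n, independent c (tpow T n) = expected HB (tpow T n)) →
      ∀ n γ', ¬ UnexpectedOver Λ w T n γ' := fun h n γ' => hloc n γ' (h (2 * n))
  have e23 : (∀ n γ', ¬ UnexpectedOver Λ w T n γ') →
      ∃ᶠ n in atTop, ¬ UnexpectedOver Λ w T n (γ n) :=
    fun h => Filter.Frequently.of_forall fun n => h n (γ n)
  refine ⟨?_, fun h => p_sigrw c T (e31 h), fun h1 => ?_⟩
  · tfae_have 1 → 2 := e12
    tfae_have 2 → 3 := e23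
    tfae_have 3 → 1 := e31
    tfae_finish
  · rw [p_siq1 c T h1]
    exact ⟨fun h => e23 (e12 h), e31⟩

/-- Single integrals over one generic cycle. -/
theorem p_si [Linear ℚ A] (c : Comparison HdR HB) (hgen : S_gen HdR HB)
    (hfwpow : S_fwpow c) (hlift : S_lift HdR HB) (hand : S_and HB) (hcop : S_cop HB)
    (hmch : S_mch) (hcmp : S_cmp c) (g : TensorGrading HdR)
    (Λ : Lefschetz c g) (w : ℕ) (T : A) (hss : SemisimpleGen T)
    (hT : Nonempty (T ≅ Tᘁ ⊗ tpow Λ.L w)) :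
    (∀ n γ, independent c (tpow T (2 * n)) = expected HB (tpow T (2 * n)) →
      ¬ UnexpectedOver Λ w T n γ) ∧
    ∃ G : ∀ n : ℕ, BDual HB (tpow T (2 * n)) → Prop,
      (∀ n, ForGeneric HB (tpow T (2 * n)) (G n)) ∧
      (∀ k n γ, k ≤ n → (2 * k + 1) ^ (Module.finrank ℚ (HB.obj T) ^ 2) ≤ 2 ^ ((n - k) / 2) →
        G n γ → ¬ UnexpectedOver Λ w T n γ →
          independent c (tpow T k) = expected HB (tpow T k)) ∧
      ∀ γ : ∀ n, BDual HB (tpow T (2 * n)), (∀ n, G n (γ n)) →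
        List.TFAE [
          ∀ n, independent c (tpow T n) = expected HB (tpow T n),
          ∀ n γ', ¬ UnexpectedOver Λ w T n γ',
          ∃ᶠ n in atTop, ¬ UnexpectedOver Λ w T n (γ n)] ∧
        ((∃ᶠ n in atTop, ¬ UnexpectedOver Λ w T n (γ n)) →
          ringKrullDim (PerAlg HB HB (Gen T)) ≤
            ((Cardinal.toENat (Algebra.trdeg ℚ (IntermediateField.adjoin ℚ (c.Per T))) : ℕ∞) :
              WithBot ℕ∞) + 1) ∧
        (Lin T (𝟙_ A) →
          (PeriodConjecture c T ↔ ∃ᶠ n in atTop, ¬ UnexpectedOver Λ w T n (γ n))) := by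
  refine ⟨(oneCycle c g Λ w T hss hT).2.1, ?_⟩
  rcases Nat.lt_or_ge (Module.finrank ℚ (HB.obj T)) 2 with hb | hb
  · have hall : ∀ n, independent c (tpow T n) = expected HB (tpow T n) := by
      intro n
      refine rank_le_one c hcmp _ ?_
      rw [finrank_tpow_obj']
      exact pow_le_one' (by omega) n
    exact ⟨fun n _ => True, fun n => hand.1 _ _ fun _ => trivial, fun k n γ _ _ _ _ => hall k,
      fun γ _ => si_tail c g Λ w T hss hT γ fun _ => hall⟩
  · refine ⟨fun n γ => ∀ k < n + 1,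
      (2 * k + 1) ^ (Module.finrank ℚ (HB.obj T) ^ 2) ≤ 2 ^ ((n - k) / 2) →
        CompleteCycle Λ.L w T k n γ,
      fun n => generic_complete c hgen hfwpow hlift hand hcop hmch Λ.iso hss hT hb n, ?_, ?_⟩
    · intro k n γ hk hcond hG hun
      by_contra hne
      exact hun (one_local Λ w T hss hT k n hk γ (hG k (Nat.lt_succ_of_le hk) hcond) hne)
    · intro γ hG
      refine si_tail c g Λ w T hss hT γ fun h k => ?_
      by_contra hne
      apply h
      have hev : ∀ᶠ n in atTop,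
          (2 * k + 1) ^ (Module.finrank ℚ (HB.obj T) ^ 2) ≤ 2 ^ ((n - k) / 2) := by
        set X := (2 * k + 1) ^ (Module.finrank ℚ (HB.obj T) ^ 2) with hX
        filter_upwards [eventually_ge_atTop (k + 2 * X)] with n hn
        have h1 : X ≤ (n - k) / 2 := by omega
        exact h1.trans (Nat.lt_two_pow_self).le
      filter_upwards [hev, eventually_ge_atTop k] with n h1 h2 h3
      exact h3 (one_local Λ w T hss hT k n h2 (γ n) (hG n k (Nat.lt_succ_of_le h2) h1) hne)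

end

end Pool.Agent.Lib.MP_ae0f86_nt.GC
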